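import Pool.Agent.J6H24.ST.Glob
import Pool.Agent.W343.BSD.Kida

/-!
The `L`-function over a Galois extension of `ℓ`-power degree, modulo `ℓ`.
-/

set_option autoImplicit false
set_option linter.all false
set_option maxHeartbeats 4000000

open PowerSeries FF Module

namespace Pool.Agent.J6H24.ST

open Pool.Agent.W343.BSD
open Pool.Agent.W313.Hyp (MI facs facs' mem_facs)
open Pool.Agent.TH639.SE (red one_sub_ne eulerProd_pow)

section

variable {k K M : Type} [Field k] [Finite k] [Field K] [Algebra k K] [FF.IsFF k K] [Field M]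
  [Algebra k M] [Algebra K M] [IsScalarTower k K M] [FF.IsFF k M] {ℓ : ℕ}

theorem rp_map {w : Place k M} {v : Place k K} {e : ℕ} (h : Over w v e) {g : Polynomial K}
    (hg : ∀ i, v.Reg (g.coeff i)) :
    rp w (g.map (algebraMap K M)) = (rp v g).map h.resMap.toRingHom := by
  unfold rp
  rw [Polynomial.natDegree_map_eq_of_injective (algebraMap K M).injective, Polynomial.map_sum]
  refine Finset.sum_congr rfl fun i _ => ?_
  rw [Polynomial.map_monomial, Polynomial.coeff_map]
  congr 1
  exact (h.resMap_red (hg i)).symm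

theorem rp_coeff (v : Place k K) (g : Polynomial K) (i : ℕ) :
    (rp v g).coeff i = v.red (g.coeff i) := by
  unfold rp
  rw [Polynomial.finset_sum_coeff]
  simp only [Polynomial.coeff_monomial]
  rw [Finset.sum_ite_eq' (Finset.range (g.natDegree + 1)) i]
  split_ifs with h
  · rfl
  · rw [Polynomial.coeff_eq_zero_of_natDegree_lt (by
      rw [Finset.mem_range] at h
      omega), v.red_zero]

theorem rp_ne {v : Place k K} {g : Polynomial K} (hg : g ≠ 0) (hr : v.Reg g.leadingCoeff)
    (h0 : v.ord g.leadingCoeff = 0) : rp v g ≠ 0 := by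
  intro h
  have h1 := rp_coeff v g g.natDegree
  rw [h, Polynomial.coeff_zero] at h1
  have h2 := (v.red_eq_zero_iff hr).1 h1.symm
  rcases h2 with h2 | h2
  · exact Polynomial.leadingCoeff_ne_zero.2 hg h2
  · rw [h0] at h2
    exact lt_irrefl _ h2

theorem facs_ne [Fact ℓ.Prime] {F : Type} [Field F] [Finite F] (h : Polynomial F) {d : ℕ}
    (hd : 0 < d) : (∏ Q ∈ facs h, (1 - X ^ (d * Q.1.natDegree) : PowerSeries (ZMod ℓ))) ≠ 0 :=
  Finset.prod_ne_zero_iff.2 fun Q _ => one_sub_ne (Nat.mul_pos hd Q.2.2.natDegree_pos)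

/-- the factors over one place of the extension -/
theorem wv_over [hp : Fact ℓ.Prime] (hq : ((Nat.card k : ℕ) : ZMod ℓ) = 1) {A : Set (Place k K)}
    {B : Set (Place k M)} {g : Polynomial K} {v : Place k K} {w : Place k M} {e j : ℕ}
    (h : Over w v e) (hdeg : w.deg = v.deg * ℓ ^ j) (hv : v ∉ A) (hw : w ∉ B)
    (hg : ∀ i, v.Reg (g.coeff i)) (h0 : rp v g ≠ 0) :
    red ℓ (wv ℓ B (g.map (algebraMap K M)) w) = red ℓ (wv ℓ A g v) ^ ℓ ^ j := by
  have hfv : Finite v.RF := finite_RF v
  have hfw : Finite w.RF := finite_RF w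
  let _ : Algebra v.RF w.RF := h.resMap.toRingHom.toAlgebra
  have hfd : FiniteDimensional v.RF w.RF := Module.Finite.of_finite
  have hfr : finrank v.RF w.RF = ℓ ^ j := by
    have h1 : w.deg = v.deg * finrank v.RF w.RF := deg_over h
    rw [hdeg] at h1
    exact (Nat.eq_of_mul_eq_mul_left (deg_pos' v) h1).symm
  have hmap : rp w (g.map (algebraMap K M)) = (rp v g).map (algebraMap v.RF w.RF) := rp_map h hg
  have h0' : rp w (g.map (algebraMap K M)) ≠ 0 := by
    rw [hmap]
    exact (Polynomial.map_ne_zero_iff (algebraMap v.RF w.RF).injective).2 h0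
  have h1 := wv_red hq hv h0
  have h2 := wv_red hq hw h0'
  have h3 := facs_ext_red (F := v.RF) (F' := w.RF) hfr (g := rp v g) h0 v.deg
  have h4 : (∏ Q ∈ facs' w (rp w (g.map (algebraMap K M))),
      (1 - X ^ (w.deg * Q.1.natDegree) : PowerSeries (ZMod ℓ))) =
      (∏ R ∈ facs' v (rp v g), (1 - X ^ (v.deg * R.1.natDegree))) ^ ℓ ^ j := by
    rw [hdeg, hmap]
    exact h3
  have h5 : (∏ R ∈ facs' v (rp v g), (1 - X ^ (v.deg * R.1.natDegree) : PowerSeries (ZMod ℓ))) ≠ 0 :=
    facs_ne (rp v g) (deg_pos' v)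
  rw [h4, Polynomial.natDegree_map_eq_of_injective (algebraMap K M).injective, hdeg,
    one_sub_pow_pow, ← pow_mul, ← pow_mul] at h2
  have h6 : (red ℓ (wv ℓ B (g.map (algebraMap K M)) w)) *
      (∏ R ∈ facs' v (rp v g), (1 - X ^ (v.deg * R.1.natDegree) : PowerSeries (ZMod ℓ))) ^
        (ℓ ^ j * (ℓ - 1)) = red ℓ (wv ℓ A g v) ^ ℓ ^ j *
      (∏ R ∈ facs' v (rp v g), (1 - X ^ (v.deg * R.1.natDegree) : PowerSeries (ZMod ℓ))) ^
        (ℓ ^ j * (ℓ - 1)) := by
    rw [h2, mul_comm (ℓ ^ j) (ℓ - 1), pow_mul _ (ℓ - 1) (ℓ ^ j), ← mul_pow, h1, ← pow_mul]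
    congr 1
    ring
  exact mul_right_cancel₀ (pow_ne_zero _ h5) h6

/-- **the congruence** -/
theorem kida [hp : Fact ℓ.Prime] (hq : ((Nat.card k : ℕ) : ZMod ℓ) = 1) {s : ℕ}
    {A : Set (Place k K)} (hM : IsUnramified ℓ s A M) {g : Polynomial K} (hg : IsIntegral A g) :
    red ℓ (LOutside ℓ (above M A) (g.map (algebraMap K M))) =
      red ℓ (LOutside ℓ A g) ^ ℓ ^ s := by
  classical
  have hgal := hM.galois
  have hfd : FiniteDimensional K M := Module.finite_of_finrank_pos (by
    rw [hM.degree]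
    exact pow_pos hp.out.pos s)
  have hℓ := hp.out.pos
  have hD := fun v : Place k K => exists_galoisFiber (L := M) v
  choose S e f D using hD
  rw [red_L hℓ, red_L hℓ, ← eulerProd_pow (fun n => places_fin n) (fun v => redwv_mod hℓ A g v),
    ← euler_fiber D (fun w => redwv_mod hℓ (above M A) (g.map (algebraMap K M)) w)]
  congr 1
  funext v
  by_cases hv : v ∈ A
  · rw [wv_in hv, map_one, one_pow]
    refine Finset.prod_eq_one fun w hw => ?_
    rw [wv_in (show w ∈ above M A from ⟨v, hv, e v, (D v).isOver w hw⟩), map_one]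
  · obtain ⟨j, hj⟩ := fiber_pow (D v) hM.degree
    have h1 : ∀ w ∈ S v, red ℓ (wv ℓ (above M A) (g.map (algebraMap K M)) w) =
        red ℓ (wv ℓ A g v) ^ ℓ ^ j := by
      intro w hw
      have hov := (D v).isOver w hw
      refine wv_over hq hov (by rw [(D v).deg w hw, hj]) hv ?_ (hg.regular v hv)
        (rp_ne hg.ne_zero (hg.regular v hv _) (hg.leading v hv))
      rintro ⟨v', hv', e', h'⟩
      have h2 : v = v' := over_unique_base hov (show Over w v' e' from h')
      exact hv (h2 ▸ hv')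
    obtain ⟨w0, hw0⟩ := (D v).nonempty
    have he : e v = 1 := hM.unramified v w0 (e v) hv ((D v).isOver w0 hw0)
    have hcard : (S v).card * ℓ ^ j = ℓ ^ s := by
      have h3 := (D v).mul
      rw [he, one_mul, hj, hM.degree] at h3
      exact h3
    rw [Finset.prod_congr rfl h1, Finset.prod_const, ← pow_mul, mul_comm, hcard]

end

end Pool.Agent.J6H24.ST
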