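import Pool.Agent.J6H24.ST.Zeta

/-!
The bounds for the orders of vanishing.
-/

set_option autoImplicit false
set_option linter.all false
set_option maxHeartbeats 4000000

open PowerSeries FF Module

namespace Pool.Agent.J6H24.ST

open Pool.Agent.W343.BSD
open Pool.Agent.W313.Hyp (MI facs facs' mem_facs)
open Pool.Agent.TH639.SE (red one_sub_ne eulerProd_pow one_sub_mod pow_one_mod IsMu)

section general

variable {ℓ : ℕ} [hp : Fact ℓ.Prime]

theorem one_sub_X_ne : (1 - Polynomial.X : Polynomial (ZMod ℓ)) ≠ 0 := by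
  have h1 := Pool.Agent.W309.T3.binom_ne (F := ZMod ℓ) (c := 1) one_pos
  rwa [Polynomial.C_1, one_mul, pow_one] at h1

theorem mu_one_sub_X : (1 - Polynomial.X : Polynomial (ZMod ℓ)).rootMultiplicity 1 = 1 := by
  have h2 := Pool.Agent.W309.T3.rm_binom ℓ (c := 1) (x := 1) one_ne_zero one_pos
  rwa [Polynomial.C_1, one_mul, pow_one, if_pos (by simp), padicValNat_one_right, pow_zero] at h2

theorem red_poly (P : Polynomial ℤ) : red ℓ (P : PowerSeries ℤ) =
    ((P.map (Int.castRingHom (ZMod ℓ)) : Polynomial (ZMod ℓ)) : PowerSeries (ZMod ℓ)) :=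
  redL_poly ℓ P

/-- the bound from an identity modulo `ℓ` -/
theorem order_le {q : ℤ} (hq : ((q : ℤ) : ZMod ℓ) = 1) {L L' : PowerSeries ℤ} {N : ℕ}
    (hL : red ℓ L' = red ℓ L ^ N) {A B : PowerSeries (ZMod ℓ)} {a b : ℕ}
    (hA : IsMu A a) (hB : IsMu B b) (hid : red ℓ L * A = B) {m : ℕ} {G H : Polynomial ℤ}
    (hH : H.map (Int.castRingHom (ZMod ℓ)) ≠ 0)
    (hG : L' * (H : PowerSeries ℤ) =
      (((1 - Polynomial.C q * Polynomial.X) ^ m * G : Polynomial ℤ) : PowerSeries ℤ)) :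
    m + N * a ≤ N * b + muMod ℓ H := by
  set φ := Int.castRingHom (ZMod ℓ) with hφ
  have h1 := congrArg (red ℓ) hG
  rw [map_mul, hL, red_poly, red_poly] at h1
  have h2 : (((1 - Polynomial.C q * Polynomial.X) ^ m * G : Polynomial ℤ)).map φ =
      (1 - Polynomial.X) ^ m * G.map φ := by
    rw [Polynomial.map_mul, Polynomial.map_pow, Polynomial.map_sub, Polynomial.map_one,
      Polynomial.map_mul, Polynomial.map_C, Polynomial.map_X]
    have h3 : φ q = 1 := by rw [hφ, eq_intCast, hq]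
    rw [h3, Polynomial.C_1, one_mul]
  rw [h2] at h1
  obtain ⟨A1, hA1, hA0, hAm⟩ := hA.pow N
  obtain ⟨B1, hB1, hB0, hBm⟩ := hB.pow N
  have h3 : ((((1 - Polynomial.X) ^ m * G.map φ) * A1 : Polynomial (ZMod ℓ)) :
      PowerSeries (ZMod ℓ)) = ((B1 * H.map φ : Polynomial (ZMod ℓ)) : PowerSeries (ZMod ℓ)) := by
    rw [Polynomial.coe_mul, ← h1, hA1, Polynomial.coe_mul, hB1, ← hid, mul_pow]
    ring
  have h4 := Polynomial.coe_injective (ZMod ℓ) h3
  have h5 : B1 * H.map φ ≠ 0 := mul_ne_zero hB0 hH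
  have h6 : (1 - Polynomial.X) ^ m * G.map φ ≠ 0 := by
    intro h
    rw [h, zero_mul] at h4
    exact h5 h4.symm
  have h7 := congrArg (Polynomial.rootMultiplicity 1) h4
  rw [rm_mul 1 h6 hA0, hAm, rm_mul 1 hB0 hH, hBm,
    rm_mul 1 (left_ne_zero_of_mul h6) (right_ne_zero_of_mul h6), rm_pow 1 one_sub_X_ne,
    mu_one_sub_X, mul_one] at h7
  unfold muMod
  rw [← hφ]
  omega

end general

section final

variable {k K : Type} [Field k] [Finite k] [Field K] [Algebra k K] [FF.IsFF k K] {ℓ : ℕ} {ι : Type}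
  [Fintype ι] {L : ι → Type} [∀ i, Field (L i)] [∀ i, Algebra k (L i)] [∀ i, Algebra K (L i)]
  [∀ i, IsScalarTower k K (L i)]

theorem aboveTerm_eq [∀ i, FF.IsFF k (L i)] {v : FF.Place k K} {S' : ∀ i, Finset (FF.Place k (L i))}
    {e d : (Σ i, FF.Place k (L i)) → ℕ} (D : FiberData v S' e d) :
    aboveTerm ℓ L v = ∑ i, ∑ w ∈ S' i, lPart ℓ w.deg := by
  classical
  unfold aboveTerm
  refine Finset.sum_congr rfl fun i _ => ?_
  have h1 : ∀ w : FF.Place k (L i), (∃ e, LiesOver w v e) ↔ w ∈ S' i := fun w =>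
    ⟨fun ⟨e', he⟩ => D.mem i w e' he, fun hw => ⟨_, D.isOver i w hw⟩⟩
  simp only [h1, S.deg_eq]
  exact finsum_mem_coe_finset (fun w : FF.Place k (L i) => lPart ℓ w.deg) (S' i)

variable {f : Polynomial K} {c : K} {θ : ∀ i, L i} {a : ι → ℕ} {A : Finset (Place k K)}

/-- **the bound over the extensions** -/
theorem IsCovering.bound [hp : Fact ℓ.Prime] (hq : ((Nat.card k : ℕ) : ZMod ℓ) = 1)
    (h : IsCovering ℓ A f c θ a) [∀ i, FF.IsFF k (L i)]
    {PK : Polynomial ℤ} (hPK : IsZetaNumRel k K PK) (hrK : constDeg k K = 1)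
    {PL : ι → Polynomial ℤ} (hPL : ∀ i, IsZetaNumRel k (L i) (PL i)) (hne : Nonempty ι)
    {M : Type} [Field M] [Algebra k M] [Algebra K M] [IsScalarTower k K M] [FF.IsFF k M]
    {s : ℕ} (hM : IsUnramified ℓ s (A : Set (Place k K)) M) {m : ℕ} {G H : Polynomial ℤ}
    (hH : H.map (Int.castRingHom (ZMod ℓ)) ≠ 0)
    (hG : HasOrder ℓ (above M (A : Set (Place k K))) (f.map (algebraMap K M)) m G H) :
    m + (ℓ - 1) * ℓ ^ s * ((1 + eps ℓ f.natDegree) * (muMod ℓ PK + ∑ v ∈ A, lPart ℓ v.deg) +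
        2 * ∑ i, lPart ℓ (constDeg k (L i))) ≤
      (ℓ - 1) * ℓ ^ s * (2 * (1 + eps ℓ f.natDegree) + ∑ i, muMod ℓ (PL i) +
        ∑ v ∈ A, aboveTerm ℓ L v) + muMod ℓ H := by
  classical
  have hF := h.isFam
  have hD := fun v : Place k K => exists_fiberData (L := L) hF.fd hF.sep v
  choose S e d D using hD
  have hint : IsIntegral (A : Set (Place k K)) f := by
    refine ⟨?_, ?_, ?_⟩
    · rw [h.eq]
      exact mul_ne_zero (Polynomial.C_ne_zero.2 h.ne_zero) (Finset.prod_ne_zero_iff.2 fun i _ =>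
        pow_ne_zero _ (minpoly.ne_zero (hF.int i)))
    · intro v hv
      exact (h.facs_eq hv).2.2.regular v hv
    · intro v hv
      exact (h.facs_eq hv).2.2.leading v hv
  have hk := kida hq hM hint
  have hid := h.identity hq hPK hrK hPL D
  set E : ℕ := (1 + eps ℓ f.natDegree) * (ℓ - 1) with hE
  have mA : IsMu ((∏ i, (1 - X ^ constDeg k (L i)) ^ 2) ^ (ℓ - 1) *
        (((PK.map (Int.castRingHom (ZMod ℓ)) : Polynomial (ZMod ℓ)) : PowerSeries (ZMod ℓ)) *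
          ∏ v ∈ A, (1 - X ^ v.deg)) ^ E)
      ((ℓ - 1) * (∑ i, 2 * lPart ℓ (constDeg k (L i))) +
        E * (muMod ℓ PK + ∑ v ∈ A, lPart ℓ v.deg)) :=
    ((IsMu.prod Finset.univ fun i _ => (IsMu.zf (constDeg_pos k (L i))).pow 2).pow (ℓ - 1)).mul
      (((isMu_num hq hPK).mul (IsMu.prod A fun v _ => IsMu.zf (deg_pos' v))).pow E)
  have mB : IsMu (((1 - X) ^ 2) ^ E *
        ((∏ i, (((PL i).map (Int.castRingHom (ZMod ℓ)) : Polynomial (ZMod ℓ)) :
          PowerSeries (ZMod ℓ))) * ∏ v ∈ A, ∏ i, ∏ w ∈ S v i, (1 - X ^ w.deg)) ^ (ℓ - 1))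
      (E * (2 * 1) + (ℓ - 1) * (∑ i, muMod ℓ (PL i) +
        ∑ v ∈ A, ∑ i, ∑ w ∈ S v i, lPart ℓ w.deg)) :=
    ((IsMu.oneX.pow 2).pow E).mul
      (((IsMu.prod Finset.univ fun i _ => isMu_num hq (hPL i)).mul
        (IsMu.prod A fun v _ => IsMu.prod Finset.univ fun i _ => IsMu.prod (S v i) fun w _ =>
          IsMu.zf (deg_pos' w))).pow (ℓ - 1))
  have h1 := order_le (q := (Nat.card k : ℤ)) (by rw [Int.cast_natCast]; exact hq) hk mA mB hid
    hH hG
  have h2 : ∑ v ∈ A, aboveTerm ℓ L v = ∑ v ∈ A, ∑ i, ∑ w ∈ S v i, lPart ℓ w.deg :=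
    Finset.sum_congr rfl fun v _ => aboveTerm_eq (D v)
  rw [h2]
  rw [← Finset.mul_sum] at h1
  refine le_trans (le_of_eq ?_) (h1.trans (le_of_eq ?_))
  · rw [hE]; ring
  · rw [hE]; ring

end final

end Pool.Agent.J6H24.ST
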