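import Pool.Agent.J6H24.ST.Pen

/-!
The final form of the bounds.
-/

set_option autoImplicit false
set_option linter.all false
set_option maxHeartbeats 4000000

open PowerSeries FF Module

namespace Pool.Agent.J6H24.ST

open Pool.Agent.W343.BSD Pool.Agent.W309.RF
open Pool.Agent.W313.Hyp (MI facs facs' mem_facs finite_deg_le finite_d eq_of_dvd_MI)
open Pool.Agent.TH639.SE (red one_sub_ne eulerProd_pow one_sub_mod pow_one_mod IsMu zeta_line
  sum_primes)
open Pool.Agent.TH943.HJ (comp_ne)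

section vanish

variable {ℓ : ℕ}

theorem lPart_pos [hp : Fact ℓ.Prime] (n : ℕ) : 0 < lPart ℓ n := pow_pos hp.out.pos _

theorem lPart_mul [hp : Fact ℓ.Prime] {n m : ℕ} (hn : 0 < n) (hm : ¬ ℓ ∣ m) :
    lPart ℓ (n * m) = lPart ℓ n := by
  have hm0 : m ≠ 0 := by
    rintro rfl
    exact hm (dvd_zero ℓ)
  unfold lPart
  rw [padicValNat.mul hn.ne' hm0, padicValNat.eq_zero_of_not_dvd hm, add_zero]

theorem mu_zero [hp : Fact ℓ.Prime] {P : Polynomial ℤ} {h : ℕ} (hP : P.eval 1 = h)
    (hh : ¬ ℓ ∣ h) : muMod ℓ P = 0 := by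
  unfold muMod
  apply Polynomial.rootMultiplicity_eq_zero
  rw [Polynomial.IsRoot.def]
  have h1 : (P.map (Int.castRingHom (ZMod ℓ))).eval 1 = ((h : ℕ) : ZMod ℓ) := by
    have h2 := Polynomial.eval_map_apply (Int.castRingHom (ZMod ℓ)) (1 : ℤ) (p := P)
    rw [map_one] at h2
    rw [h2, hP]
    simp
  rw [h1]
  intro h0
  exact hh ((ZMod.natCast_eq_zero_iff h ℓ).1 h0)

variable {k K : Type} [Field k] [Finite k] [Field K] [Algebra k K] [FF.IsFF k K] {ι : Type}
  [Fintype ι] {L : ι → Type} [∀ i, Field (L i)] [∀ i, Algebra k (L i)] [∀ i, Algebra K (L i)]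
  [∀ i, IsScalarTower k K (L i)]
  {f : Polynomial K} {c : K} {θ : ∀ i, L i} {a : ι → ℕ} {A : Finset (Place k K)}

theorem IsCovering.above_le [hp : Fact ℓ.Prime] (h : IsCovering ℓ A f c θ a)
    [∀ i, FF.IsFF k (L i)] (hs : Subsingleton ι) (hd : ¬ ℓ ∣ f.natDegree) {v : Place k K}
    (hv : ∀ i, ∀ w w' : Place k (L i), (∃ e, LiesOver w v e) → (∃ e, LiesOver w' v e) → w = w') :
    aboveTerm ℓ L v ≤ lPart ℓ v.deg := by
  classical
  have hF := h.isFam
  obtain ⟨S, e, d, D⟩ := exists_fiberData (L := L) hF.fd hF.sep v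
  rw [aboveTerm_eq D]
  rcases isEmpty_or_nonempty ι with hι | ⟨⟨i⟩⟩
  · rw [Finset.univ_eq_empty, Finset.sum_empty]
    exact Nat.zero_le _
  have huniv : (Finset.univ : Finset ι) = {i} := by
    ext j
    simp [Subsingleton.elim j i]
  rw [huniv, Finset.sum_singleton]
  have hfin : f.natDegree = a i * finrank K (L i) := by
    have hmm : (minpoly K (θ i)).Monic := minpoly.monic (hF.int i)
    rw [h.eq, Polynomial.natDegree_C_mul h.ne_zero, huniv, Finset.prod_singleton, hmm.natDegree_pow,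
      natDegree_of_gen (hF.int i) (hF.gen i)]
  have hn : ¬ ℓ ∣ finrank K (L i) := fun h' => hd (by rw [hfin]; exact h'.mul_left _)
  rcases (S i).eq_empty_or_nonempty with he | ⟨w, hw⟩
  · rw [he, Finset.sum_empty]
    exact Nat.zero_le _
  have hS : S i = {w} := by
    ext w'
    rw [Finset.mem_singleton]
    constructor
    · intro hw'
      exact hv i w' w ⟨_, D.isOver i w' hw'⟩ ⟨_, D.isOver i w hw⟩
    · rintro rfl
      exact hw
  have h1 := D.sum i
  rw [hS, Finset.sum_singleton] at h1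
  rw [hS, Finset.sum_singleton, D.deg i w hw, lPart_mul (deg_pos' v)]
  intro h'
  apply hn
  rw [← h1]
  exact h'.mul_left _

/-- the vanishing criterion -/
theorem IsCovering.order_zero [hp : Fact ℓ.Prime]
    (h : IsCovering ℓ A f c θ a) [∀ i, FF.IsFF k (L i)]
    {PK : Polynomial ℤ} {PL : ι → Polynomial ℤ} {N m μ : ℕ} (hι : Nonempty ι)
    (hb : m + N * ((1 + eps ℓ f.natDegree) * (muMod ℓ PK + ∑ v ∈ A, lPart ℓ v.deg) +
        2 * ∑ i, lPart ℓ (constDeg k (L i))) ≤
      N * (2 * (1 + eps ℓ f.natDegree) + ∑ i, muMod ℓ (PL i) +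
        ∑ v ∈ A, aboveTerm ℓ L v) + μ)
    (hs : Subsingleton ι) (hd : ¬ ℓ ∣ f.natDegree)
    (hPL : ∀ i, (PL i).eval 1 = S.classNumber k (L i)) (hcl : ∀ i, ¬ ℓ ∣ S.classNumber k (L i))
    (hv : ∀ v ∈ A, ∀ i, ∀ w w' : Place k (L i), (∃ e, LiesOver w v e) → (∃ e, LiesOver w' v e) →
      w = w') : m ≤ μ := by
  classical
  have h1 : ∑ v ∈ A, aboveTerm ℓ L v ≤ ∑ v ∈ A, lPart ℓ v.deg :=
    Finset.sum_le_sum fun v hvA => h.above_le hs hd (hv v hvA)
  have h2 : ∑ i, muMod ℓ (PL i) = 0 := Finset.sum_eq_zero fun i _ => mu_zero (hPL i) (hcl i)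
  have h3 : eps ℓ f.natDegree = 0 := if_neg hd
  have h4 : 1 ≤ ∑ i, lPart ℓ (constDeg k (L i)) := by
    obtain ⟨i⟩ := hι
    exact le_trans (lPart_pos _) (Finset.single_le_sum (f := fun i => lPart ℓ (constDeg k (L i)))
      (fun _ _ => Nat.zero_le _) (Finset.mem_univ i))
  rw [h2, h3] at hb
  have h5 : 2 * (1 + 0) + 0 + ∑ v ∈ A, aboveTerm ℓ L v ≤
      (1 + 0) * (muMod ℓ PK + ∑ v ∈ A, lPart ℓ v.deg) + 2 * ∑ i, lPart ℓ (constDeg k (L i)) := by
    omega
  have h6 := Nat.mul_le_mul_left N h5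
  omega

end vanish

section pencil

variable {k M : Type} [Field k] [Finite k] [Field M] [Algebra k M] [Algebra (RatFunc k) M]
  [IsScalarTower k (RatFunc k) M] {ℓ : ℕ}

omit [Finite k] in
theorem aeval_map (p : Polynomial k) : Polynomial.aeval (algebraMap (RatFunc k) M RatFunc.X) p =
    algebraMap (RatFunc k) M (Polynomial.aeval (RatFunc.X : RatFunc k) p) :=
  Polynomial.aeval_algebraMap_apply M _ p

omit [Finite k] in
theorem pencil_map (F D : Polynomial k) :
    pencil F D (algebraMap (RatFunc k) M RatFunc.X) =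
      (pencil F D (RatFunc.X : RatFunc k)).map (algebraMap (RatFunc k) M) := by
  unfold pencil
  rw [Polynomial.map_mul, Polynomial.map_C, Polynomial.map_sub, Polynomial.map_C,
    Polynomial.map_map, ← IsScalarTower.algebraMap_eq, aeval_map]

theorem badSet_map [FF.IsFF k M] [FiniteDimensional (RatFunc k) M] (S : Finset (MI k)) :
    badSet S (algebraMap (RatFunc k) M RatFunc.X) =
      above M (badSet S (RatFunc.X : RatFunc k)) := by
  ext w
  obtain ⟨e, v, hv⟩ := exists_below (k := k) (K := RatFunc k) w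
  have he : (0 : ℤ) < e := by exact_mod_cast hv.1
  have h1 : ∀ x : RatFunc k, w.ord (algebraMap (RatFunc k) M x) < 0 ↔ v.ord x < 0 := by
    intro x
    rw [hv.2 x]
    constructor
    · intro h
      by_contra hc
      push Not at hc
      exact absurd (mul_nonneg he.le hc) (not_le.2 h)
    · intro h
      exact mul_neg_of_pos_of_neg he h
  have h2 : ∀ x : RatFunc k, 0 < w.ord (algebraMap (RatFunc k) M x) ↔ 0 < v.ord x := by
    intro x
    rw [hv.2 x]
    exact mul_pos_iff_of_pos_left he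
  have h3 : w ∈ badSet S (algebraMap (RatFunc k) M RatFunc.X) ↔
      v ∈ badSet S (RatFunc.X : RatFunc k) := by
    unfold badSet
    simp only [Set.mem_setOf_eq, aeval_map, h1, h2]
  rw [h3]
  constructor
  · intro h
    exact ⟨v, h, e, hv⟩
  · rintro ⟨v', h, e', hv'⟩
    have h4 : v = v' := over_unique_base hv (show Over w v' e' from hv')
    rw [h4]
    exact h

theorem pencil_integral {F D : Polynomial k} (hF : 0 < F.natDegree) {S : Finset (MI k)}
    (hD : D ≠ 0) (hDS : ∀ P : MI k, P.1 ∣ D → P ∈ S) :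
    IsIntegral (badSet S (RatFunc.X : RatFunc k)) (pencil F D (RatFunc.X : RatFunc k)) := by
  have hAD : Polynomial.aeval (RatFunc.X : RatFunc k) D ≠ 0 := by
    rw [← A_aeval]; exact A_ne hD
  have hinj : Function.Injective (algebraMap k (RatFunc k)) := (algebraMap k (RatFunc k)).injective
  have hF0 : F ≠ 0 := by
    rintro rfl
    rw [Polynomial.natDegree_zero] at hF
    exact lt_irrefl _ hF
  have hlc : (pencil F D (RatFunc.X : RatFunc k)).leadingCoeff =
      Polynomial.aeval (RatFunc.X : RatFunc k) D * algebraMap k (RatFunc k) F.leadingCoeff := by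
    unfold pencil
    rw [Polynomial.leadingCoeff_mul, Polynomial.leadingCoeff_C, Polynomial.leadingCoeff_sub_of_degree_lt,
      Polynomial.leadingCoeff_map_of_injective hinj]
    refine lt_of_le_of_lt Polynomial.degree_C_le ?_
    apply Polynomial.natDegree_pos_iff_degree_pos.1
    rw [Polynomial.natDegree_map_eq_of_injective hinj]
    exact hF
  have hl0 : algebraMap k (RatFunc k) F.leadingCoeff ≠ 0 :=
    (_root_.map_ne_zero _).2 (Polynomial.leadingCoeff_ne_zero.2 hF0)
  have hne : pencil F D (RatFunc.X : RatFunc k) ≠ 0 := by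
    rw [← Polynomial.leadingCoeff_ne_zero, hlc]
    exact mul_ne_zero hAD hl0
  refine ⟨hne, ?_, ?_⟩
  · intro v hv i
    have hX : 0 ≤ v.ord RatFunc.X := by
      by_contra hc
      push Not at hc
      exact hv (Or.inl hc)
    unfold pencil
    rw [Polynomial.coeff_C_mul, Polynomial.coeff_sub, Polynomial.coeff_map, sub_eq_add_neg]
    refine v.reg_mul (by rw [← A_aeval]; exact fin_reg hX D) (v.reg_add (v.reg_const _)
      (v.reg_neg ?_))
    rw [Polynomial.coeff_C]
    split_ifs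
    · exact Or.inr hX
    · exact v.reg_zero
  · intro v hv
    rcases cases_plc v with rfl | ⟨P, rfl⟩
    · exact absurd inf_bad hv
    · rw [hlc, Place.ord_mul _ hAD hl0, Place.ord_const _ (Polynomial.leadingCoeff_ne_zero.2 hF0),
        add_zero, ← A_aeval]
      have h1 : ¬ 0 < (plc P).ord (A D) := fun h =>
        hv (mem_bad.2 (hDS P ((plc_dvd P hD).1 h)))
      have h2 : 0 ≤ (plc P).ord (A D) := ((plc P).reg_iff (A_ne hD)).1 (fin_reg (plc_fin P) D)
      omega

/-- **the bound for the pencils** -/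
theorem pencil_bound [hp : Fact ℓ.Prime] (hq : ((Nat.card k : ℕ) : ZMod ℓ) = 1)
    {F D : Polynomial k} (hF : ¬ ℓ ∣ F.natDegree) {S : Finset (MI k)} (hD : D ≠ 0)
    (hDS : ∀ P : MI k, P.1 ∣ D → P ∈ S) [FF.IsFF k M] {s : ℕ}
    (hM : IsUnramified ℓ s (badSet S (RatFunc.X : RatFunc k)) M) {m : ℕ} {G H : Polynomial ℤ}
    (hH : H.map (Int.castRingHom (ZMod ℓ)) ≠ 0)
    (hG : HasOrder ℓ (badSet S (algebraMap (RatFunc k) M RatFunc.X))
      (pencil F D (algebraMap (RatFunc k) M RatFunc.X)) m G H) :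
    m + (ℓ - 1) * ℓ ^ s * ∑ P ∈ S, lPart ℓ P.1.natDegree ≤
      (ℓ - 1) * ℓ ^ s * (∑ P ∈ S, ∑ R ∈ primes (P.1.comp F), lPart ℓ R.natDegree) +
        muMod ℓ H := by
  classical
  have hF0 : 0 < F.natDegree := by
    rcases Nat.eq_zero_or_pos F.natDegree with h | h
    · exact absurd (by rw [h]; exact dvd_zero ℓ) hF
    · exact h
  have hfd : FiniteDimensional (RatFunc k) M := Module.finite_of_finrank_pos (by
    rw [hM.degree]
    exact pow_pos hp.out.pos s)
  rw [badSet_map, pencil_map] at hG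
  have hk := kida hq hM (pencil_integral hF0 hD hDS)
  have hid := pencil_identity hq hF hD hDS
  have mA : IsMu ((∏ P ∈ S, (1 - X ^ P.1.natDegree) : PowerSeries (ZMod ℓ)) ^ (ℓ - 1))
      ((ℓ - 1) * ∑ P ∈ S, lPart ℓ P.1.natDegree) :=
    (IsMu.prod S fun P _ => IsMu.zf P.2.2.natDegree_pos).pow (ℓ - 1)
  have mB : IsMu ((∏ P ∈ S, ∏ R ∈ facs (P.1.comp F), (1 - X ^ R.1.natDegree) :
      PowerSeries (ZMod ℓ)) ^ (ℓ - 1))
      ((ℓ - 1) * ∑ P ∈ S, ∑ R ∈ facs (P.1.comp F), lPart ℓ R.1.natDegree) :=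
    (IsMu.prod S fun P _ => IsMu.prod _ fun R _ => IsMu.zf R.2.2.natDegree_pos).pow (ℓ - 1)
  have h1 := order_le (q := (Nat.card k : ℤ)) (by rw [Int.cast_natCast]; exact hq) hk mA mB hid
    hH hG
  have h2 : ∑ P ∈ S, ∑ R ∈ primes (P.1.comp F), lPart ℓ R.natDegree =
      ∑ P ∈ S, ∑ R ∈ facs (P.1.comp F), lPart ℓ R.1.natDegree :=
    Finset.sum_congr rfl fun P _ =>
      (sum_primes (comp_ne hF0 P) (fun R => lPart ℓ R.natDegree)).symm
  rw [h2]
  refine le_trans (le_of_eq ?_) (h1.trans (le_of_eq ?_))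
  · ring
  · ring

/-- the sum for an irreducible composition -/
theorem sum_irreducible [hp : Fact ℓ.Prime] {F : Polynomial k} (hF : ¬ ℓ ∣ F.natDegree)
    {P : MI k} (hP : Irreducible (P.1.comp F)) :
    ∑ R ∈ primes (P.1.comp F), lPart ℓ R.natDegree = lPart ℓ P.1.natDegree := by
  classical
  unfold primes
  rw [UniqueFactorizationMonoid.normalizedFactors_irreducible hP, Multiset.toFinset_singleton,
    Finset.sum_singleton]
  have h1 : (normalize (P.1.comp F)).natDegree = P.1.natDegree * F.natDegree := by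
    rw [← Polynomial.natDegree_comp]
    exact Polynomial.natDegree_eq_of_degree_eq
      (Polynomial.degree_eq_degree_of_associated (normalize_associated _))
  rw [h1, lPart_mul P.2.2.natDegree_pos hF]

end pencil

end Pool.Agent.J6H24.ST
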