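import Pool.Agent.TH639.SE.Bnd

/-!
The factors of a polynomial over a finite field in an extension of `ℓ`-power degree, modulo `ℓ`.
-/

set_option autoImplicit false
set_option maxHeartbeats 1000000

open Polynomial

namespace Pool.Agent.J6H24.ST

open Pool.Agent.W313.Hyp Pool.Agent.W343.BSD
open Pool.Agent.TH943.HJ (RF finRF fd1 finrank_RF)
open Pool.Agent.TH943.LP (prod_facs_map)

section iso

variable {F F' : Type} [Field F] [Field F']

/-- the closed points of the line under an isomorphism of fields -/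
noncomputable def miEquiv (ψ : F ≃+* F') : MI F ≃ MI F' where
  toFun P := ⟨P.1.map ψ.toRingHom, P.2.1.map _,
    (MulEquiv.irreducible_iff (Polynomial.mapEquiv ψ)).2 P.2.2⟩
  invFun P := ⟨P.1.map ψ.symm.toRingHom, P.2.1.map _,
    (MulEquiv.irreducible_iff (Polynomial.mapEquiv ψ.symm)).2 P.2.2⟩
  left_inv P := by
    apply Subtype.ext
    change (P.1.map ψ.toRingHom).map ψ.symm.toRingHom = P.1
    rw [Polynomial.map_map]
    have : ψ.symm.toRingHom.comp ψ.toRingHom = RingHom.id F := by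
      ext x
      simp
    rw [this, Polynomial.map_id]
  right_inv P := by
    apply Subtype.ext
    change (P.1.map ψ.symm.toRingHom).map ψ.toRingHom = P.1
    rw [Polynomial.map_map]
    have : ψ.toRingHom.comp ψ.symm.toRingHom = RingHom.id F' := by
      ext x
      simp
    rw [this, Polynomial.map_id]

theorem miEquiv_deg (ψ : F ≃+* F') (P : MI F) : (miEquiv ψ P).1.natDegree = P.1.natDegree :=
  natDegree_map_eq_of_injective (f := ψ.toRingHom) ψ.injective P.1

theorem miEquiv_dvd (ψ : F ≃+* F') (P : MI F) (g : F[X]) :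
    (miEquiv ψ P).1 ∣ g.map ψ.toRingHom ↔ P.1 ∣ g :=
  (map_dvd_iff (Polynomial.mapEquiv ψ)).trans Iff.rfl

theorem map_ne' (ψ : F ≃+* F') {g : F[X]} (hg : g ≠ 0) : g.map ψ.toRingHom ≠ 0 :=
  (Polynomial.map_ne_zero_iff (f := ψ.toRingHom) ψ.injective).2 hg

theorem prod_facs_iso [Finite F] [Finite F'] {M : Type*} [CommMonoid M] (ψ : F ≃+* F') {g : F[X]}
    (hg : g ≠ 0) (φ : ℕ → M) :
    ∏ P ∈ facs (g.map ψ.toRingHom), φ P.1.natDegree = ∏ P ∈ facs g, φ P.1.natDegree := by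
  symm
  refine Finset.prod_equiv (miEquiv ψ) (fun P => ?_) (fun P _ => by rw [miEquiv_deg])
  rw [mem_facs hg, mem_facs (map_ne' ψ hg), miEquiv_dvd]

end iso

section ext

variable {F F' : Type} [Field F] [Finite F] [Field F'] [Algebra F F'] [FiniteDimensional F F']

omit [Finite F] in
theorem exists_iso [Algebra.IsSeparable F F'] : ∃ P : MI F, Nonempty (RF P ≃ₐ[F] F') := by
  obtain ⟨α, hα⟩ := Field.exists_primitive_element F F'
  have hint : IsIntegral F α := Algebra.IsIntegral.isIntegral α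
  exact ⟨⟨minpoly F α, minpoly.monic hint, minpoly.irreducible hint⟩,
    ⟨((IntermediateField.adjoinRootEquivAdjoin F hint).trans
    (IntermediateField.equivOfEq hα)).trans IntermediateField.topEquiv⟩⟩

theorem prod_facs_ext [Finite F'] {M : Type} [CommMonoid M] {g : F[X]} (hg : g ≠ 0) (φ : ℕ → M) :
    ∏ Q ∈ facs (g.map (algebraMap F F')), φ (Module.finrank F F' * Q.1.natDegree) =
      ∏ R ∈ facs g, φ (Nat.lcm (Module.finrank F F') R.1.natDegree) ^
        (Nat.gcd (Module.finrank F F') R.1.natDegree) := by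
  obtain ⟨P, ⟨ψ⟩⟩ := exists_iso (F := F) (F' := F')
  have hfinP : Finite (RF P) := finRF P
  have hdeg : P.1.natDegree = Module.finrank F F' := by
    rw [← finrank_RF P]
    exact ψ.toLinearEquiv.finrank_eq
  have h1 : (g.map (algebraMap F (RF P))).map ψ.toRingEquiv.toRingHom =
      g.map (algebraMap F F') := by
    rw [Polynomial.map_map]
    congr 1
    ext x
    exact ψ.commutes x
  have hg' : g.map (algebraMap F (RF P)) ≠ 0 :=
    (Polynomial.map_ne_zero_iff (algebraMap F (RF P)).injective).2 hg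
  have h2 := prod_facs_iso ψ.toRingEquiv hg' (fun n => φ (Module.finrank F F' * n))
  rw [h1] at h2
  rw [h2, ← hdeg]
  exact prod_facs_map hg P φ

end ext

section modl

variable {ℓ : ℕ} [hℓ : Fact ℓ.Prime]

theorem one_sub_pow_pow (a j : ℕ) : (1 - PowerSeries.X ^ (a * ℓ ^ j) : PowerSeries (ZMod ℓ)) =
    (1 - PowerSeries.X ^ a) ^ ℓ ^ j := by
  induction j with
  | zero => rw [pow_zero, mul_one, pow_one]
  | succ j ih =>
    rw [pow_succ, ← mul_assoc, pow_mul, TH639.SE.one_sub_pow, ih, ← pow_mul]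

theorem lcm_gcd (d j m : ℕ) : ((1 - PowerSeries.X ^ (d * Nat.lcm (ℓ ^ j) m) : PowerSeries (ZMod ℓ))) ^
    (Nat.gcd (ℓ ^ j) m) = (1 - PowerSeries.X ^ (d * m)) ^ ℓ ^ j := by
  obtain ⟨i, hi, hg⟩ := (Nat.dvd_prime_pow hℓ.out).1 (Nat.gcd_dvd_left (ℓ ^ j) m)
  have h1 := Nat.gcd_mul_lcm (ℓ ^ j) m
  have hpos : 0 < ℓ ^ i := pow_pos hℓ.out.pos i
  have h2 : Nat.lcm (ℓ ^ j) m = m * ℓ ^ (j - i) := by
    rw [hg] at h1
    apply Nat.eq_of_mul_eq_mul_left hpos
    rw [h1]
    have h3 : ℓ ^ j = ℓ ^ i * ℓ ^ (j - i) := by rw [← pow_add, Nat.add_sub_cancel' hi]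
    rw [h3]
    ring
  rw [h2, hg, ← mul_assoc, one_sub_pow_pow, ← pow_mul, ← pow_add, Nat.sub_add_cancel hi]

theorem facs_ext_red {F F' : Type} [Field F] [Finite F] [Field F'] [Finite F'] [Algebra F F']
    [FiniteDimensional F F'] {j : ℕ} (hj : Module.finrank F F' = ℓ ^ j) {g : F[X]} (hg : g ≠ 0)
    (d : ℕ) :
    ∏ Q ∈ facs (g.map (algebraMap F F')), (1 - PowerSeries.X ^ (d * ℓ ^ j * Q.1.natDegree) :
      PowerSeries (ZMod ℓ)) = (∏ R ∈ facs g, (1 - PowerSeries.X ^ (d * R.1.natDegree))) ^ ℓ ^ j := by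
  have h1 := prod_facs_ext (F := F) (F' := F') hg
    (fun n => (1 - PowerSeries.X ^ (d * n) : PowerSeries (ZMod ℓ)))
  rw [hj] at h1
  have h2 : ∏ R ∈ facs g, (1 - PowerSeries.X ^ (d * Nat.lcm (ℓ ^ j) R.1.natDegree) :
      PowerSeries (ZMod ℓ)) ^ (Nat.gcd (ℓ ^ j) R.1.natDegree) =
      (∏ R ∈ facs g, (1 - PowerSeries.X ^ (d * R.1.natDegree))) ^ ℓ ^ j := by
    rw [← Finset.prod_pow]
    exact Finset.prod_congr rfl fun R _ => lcm_gcd d j R.1.natDegree
  rw [← h2]
  refine Eq.trans ?_ h1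
  exact Finset.prod_congr rfl fun Q _ => by rw [mul_assoc]

end modl

end Pool.Agent.J6H24.ST
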