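import Pool.Agent.W343.BSD.Stmt

/-!
The notions used in the statement on cyclic coverings of the line of prime degree over function
fields. `FF.Place k K` is the type of the normalised discrete valuations `v.ord` of `K` over `k`;
`v.Reg f` says that `f` is regular at `v`.
-/

set_option autoImplicit false
set_option linter.all false
set_option maxHeartbeats 4000000

open Polynomial Pool.Agent.W343.BSD

namespace Pool.Agent.J6H24.ST

/-- The monic irreducible polynomials over a field: the closed points of the affine line. -/
abbrev ClosedPt (F : Type) [Field F] : Type := {P : F[X] // P.Monic ∧ Irreducible P}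

open Classical in
/-- The Euler factor at a closed point of degree `n` of the Jacobian of the covering `y ^ ℓ = g(x)` of
the line: `1` if the point is a branch point, `(1 - T ^ n) ^ (ℓ - 1)` if there are `ℓ` points of
degree `n` over it, and `1 + T ^ n + ... + T ^ ((ℓ - 1) n)` if there is one point of degree `ℓ n`
over it. -/
noncomputable def eulerFactor (ℓ n : ℕ) (isBranch isPower : Prop) : PowerSeries ℤ :=
  if isBranch then 1 else if isPower then (1 - PowerSeries.X ^ n) ^ (ℓ - 1)
  else ∑ i ∈ Finset.range ℓ, (PowerSeries.X ^ n) ^ i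

/-- Two if `ℓ` divides the degree `n` of `f`, and one if it does not, that is if `x = ∞` is a branch
point of `y ^ ℓ = f(x)`. -/
def infTerm (ℓ n : ℕ) : ℕ := if ℓ ∣ n then 2 else 1

/-- The greatest power of `ℓ` dividing `n`. -/
def lPart (ℓ n : ℕ) : ℕ := ℓ ^ padicValNat ℓ n

open Classical in
/-- The monic irreducible factors of a polynomial over a field. -/
noncomputable def primes {F : Type} [Field F] (g : F[X]) : Finset F[X] :=
  (UniqueFactorizationMonoid.normalizedFactors g).toFinset

/-- The power series are congruent modulo `ℓ`. -/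
def CongrMod (ℓ : ℕ) (P Q : PowerSeries ℤ) : Prop :=
  PowerSeries.map (Int.castRingHom (ZMod ℓ)) P = PowerSeries.map (Int.castRingHom (ZMod ℓ)) Q

/-- The multiplicity of the root `1` of an integral polynomial modulo `ℓ`. -/
noncomputable def muMod (ℓ : ℕ) (P : ℤ[X]) : ℕ :=
  (P.map (Int.castRingHom (ZMod ℓ))).rootMultiplicity 1

section defs

variable {k K : Type} [Field k] [Field K] [Algebra k K]

/-- The reduction of `g` at `v`: the polynomial over the residue field of `v` whose coefficients are
the residue classes of the coefficients of `g`. -/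
noncomputable def redPoly (v : FF.Place k K) (g : K[X]) : (S.Res v)[X] :=
  ∑ i ∈ Finset.range (g.natDegree + 1), monomial i (S.red v (g.coeff i))

/-- The reduction of `g` at `v` is zero at the closed point `Q`. -/
abbrev ZeroAt (v : FF.Place k K) (Q : ClosedPt (S.Res v)) (g : K[X]) : Prop := Q.1 ∣ redPoly v g

/-- The reduction of `g` at `v` has a multiple zero at the closed point `Q`. -/
abbrev MultipleAt (v : FF.Place k K) (Q : ClosedPt (S.Res v)) (g : K[X]) : Prop :=
  Q.1 ^ 2 ∣ redPoly v g

/-- The value of the reduction of `g` at the closed point `Q` is an `ℓ`-th power in the residue field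
of `Q`. -/
abbrev PowerAt (ℓ : ℕ) (v : FF.Place k K) (Q : ClosedPt (S.Res v)) (g : K[X]) : Prop :=
  ∃ s : (S.Res v)[X], Q.1 ∣ redPoly v g - s ^ ℓ

/-- The reduction of `g` at `v` is not a constant times an `ℓ`-th power. -/
abbrev NotPower (ℓ : ℕ) (v : FF.Place k K) (g : K[X]) : Prop :=
  ∀ (b : S.Res v) (w : (S.Res v)[X]), redPoly v g ≠ C b * w ^ ℓ

/-- The closed points of the affine lines over the residue fields of the places which are not in
`B`. -/
structure PtOutside (B : Set (FF.Place k K)) : Type where
  place : FF.Place k K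
  outside : place ∉ B
  pt : ClosedPt (S.Res place)

/-- The degree over `k` of a closed point. -/
noncomputable def PtOutside.deg {B : Set (FF.Place k K)} (z : PtOutside B) : ℕ :=
  S.deg z.place * z.pt.1.natDegree

/-- The Euler factor at the closed point `z` over the place `v`: it is a branch point if the
reduction of `g` at `v` is zero there, and the points over it are rational over its residue field if
the value of this reduction is an `ℓ`-th power. -/
noncomputable def factorAt (ℓ : ℕ) {B : Set (FF.Place k K)} (g : K[X]) (z : PtOutside B) :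
    PowerSeries ℤ :=
  eulerFactor ℓ z.deg (ZeroAt z.place z.pt g) (PowerAt ℓ z.place z.pt g)

/-- The Euler factor at the point `x = ∞` over the place `v`: it is a branch point if the degree of
`g` is not divisible by `ℓ`, and otherwise the points over it are rational if the leading coefficient
of `g` is an `ℓ`-th power in the residue field. -/
noncomputable def factorInf (ℓ : ℕ) (g : K[X]) (v : FF.Place k K) : PowerSeries ℤ :=
  eulerFactor ℓ (S.deg v) (¬ ℓ ∣ g.natDegree) (∃ s : S.Res v, s ^ ℓ = S.red v g.leadingCoeff)

/-- The `L`-function in the variable `T = q ^ (-s)` of the Jacobian over `K` of the covering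
`y ^ ℓ = g(x)` of the line, without the Euler factors at the places in `B`: the product of the Euler
factors of the closed points of the projective lines over the residue fields of the places which
are not in `B`. -/
noncomputable def LOutside (ℓ : ℕ) (B : Set (FF.Place k K)) (g : K[X]) : PowerSeries ℤ :=
  eulerProd (fun z : PtOutside B => z.deg) (fun z => factorAt ℓ g z) *
    eulerProd (fun v : {v : FF.Place k K // v ∉ B} => S.deg v.1) (fun v => factorInf ℓ g v.1)

/-- `LOutside` is `(1 - q T) ^ m * G / H` with integral polynomials `G` and `H`. -/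
def HasOrder (ℓ : ℕ) (B : Set (FF.Place k K)) (g : K[X]) (m : ℕ) (G H : ℤ[X]) : Prop :=
  LOutside ℓ B g * (H : PowerSeries ℤ) =
    (((1 - C (Nat.card k : ℤ) * X) ^ m * G : ℤ[X]) : PowerSeries ℤ)

variable {M : Type} [Field M] [Algebra k M] [Algebra K M]

/-- The place `w` lies over the place `v` with ramification index `e`. -/
def LiesOver (w : FF.Place k M) (v : FF.Place k K) (e : ℕ) : Prop :=
  0 < e ∧ ∀ x : K, w.ord (algebraMap K M x) = e * v.ord x

/-- The places of `M` over the places in `B`. -/
def above (M : Type) [Field M] [Algebra k M] [Algebra K M] (B : Set (FF.Place k K)) :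
    Set (FF.Place k M) :=
  {w | ∃ v ∈ B, ∃ e, LiesOver w v e}

/-- `M` is a Galois extension of `K` of degree `ℓ ^ s`, unramified outside `B`. -/
structure IsUnramified (ℓ s : ℕ) (B : Set (FF.Place k K)) (M : Type) [Field M] [Algebra k M]
    [Algebra K M] : Prop where
  galois : IsGalois K M
  degree : Module.finrank K M = ℓ ^ s
  unramified : ∀ (v : FF.Place k K) (w : FF.Place k M) (e : ℕ), v ∉ B → LiesOver w v e → e = 1

/-- The coefficients of `g` are regular at the places which are not in `B`, and the leading
coefficient has no zeros there. -/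
structure IsIntegral (B : Set (FF.Place k K)) (g : K[X]) : Prop where
  ne_zero : g ≠ 0
  regular : ∀ v ∉ B, ∀ i, v.Reg (g.coeff i)
  leading : ∀ v ∉ B, v.ord g.leadingCoeff = 0

/-- The sum of the `ℓ`-parts of the degrees of the places over `v` of the fields `L i`. -/
noncomputable def aboveTerm (ℓ : ℕ) {ι : Type} [Fintype ι] (L : ι → Type) [∀ i, Field (L i)]
    [∀ i, Algebra k (L i)] [∀ i, Algebra K (L i)] (v : FF.Place k K) : ℕ :=
  ∑ i, ∑ᶠ (w : FF.Place k (L i)) (_ : ∃ e, LiesOver w v e), lPart ℓ (S.deg w)

/-- The scheme `g = 0` over the valuation ring of `v` is regular (Dedekind's criterion): at every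
multiple zero `Q` of the reduction `g` is `q ^ m h + t r`, where `t` is a uniformizer, `q`, `h`, `r`
are polynomials over the valuation ring, `q` is a lift of `Q`, and the reductions of `h` and `r` are
not zero at `Q`. There is nothing to check if the reduction of `g` is squarefree. -/
def IsRegularAt (v : FF.Place k K) (g : K[X]) : Prop :=
  ∀ Q : ClosedPt (S.Res v), MultipleAt v Q g →
    ∃ (t : K) (q h r : K[X]) (m : ℕ), v.ord t = 1 ∧
      (∀ i, v.Reg (q.coeff i) ∧ v.Reg (h.coeff i) ∧ v.Reg (r.coeff i)) ∧
      g = q ^ m * h + C t * r ∧ redPoly v q = Q.1 ∧ ¬ ZeroAt v Q h ∧ ¬ ZeroAt v Q r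

/-- The covering `y ^ ℓ = f(x)` of the line over `K`, where `f` is `c` times the product of the
powers `a i`, prime to `ℓ`, of the minimal polynomials of the elements `θ i` of the fields
`L i = K(θ i)`: the branch points are the `θ i` and their conjugates, and `x = ∞` if the degree of
`f` is not divisible by `ℓ`. At the places `v` outside `A` it has a regular model with geometrically
integral fibre: `c` is a unit, the closure of the branch points different from `∞` is regular, and
the reduction of `f` is not a constant times an `ℓ`-th power. -/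
structure IsCovering (ℓ : ℕ) (A : Finset (FF.Place k K)) (f : K[X]) (c : K) {ι : Type} [Fintype ι]
    {L : ι → Type} [∀ i, Field (L i)] [∀ i, Algebra K (L i)] (θ : ∀ i, L i) (a : ι → ℕ) :
    Prop where
  eq : f = C c * ∏ i, minpoly K (θ i) ^ a i
  generates : ∀ i, IntermediateField.adjoin K {θ i} = ⊤
  separable : (∏ i, minpoly K (θ i)).Separable
  exponent : ∀ i, ¬ ℓ ∣ a i
  ne_zero : c ≠ 0
  unit : ∀ v ∉ A, v.ord c = 0
  coeff : ∀ v ∉ A, ∀ i j, v.Reg ((minpoly K (θ i)).coeff j)
  regular : ∀ v ∉ A, IsRegularAt v (∏ i, minpoly K (θ i))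
  integral : ∀ v ∉ A, NotPower ℓ v f

/-- Whenever `LOutside` is `(1 - q T) ^ m * G / H` with integral polynomials `G` and `H`, `H` not zero
modulo `ℓ`, then `m + N a ≤ N b + mu(H)`, where `mu(H)` is the multiplicity of the root `1` of `H` modulo
`ℓ`. If `LOutside` is a polynomial one can take `H = 1`, `mu(H) = 0`, and its order of vanishing at
`T = 1 / q` is at most `N (b - a)`. -/
def OrderAtMost (ℓ : ℕ) (B : Set (FF.Place k K)) (g : K[X]) (N a b : ℕ) : Prop :=
  ∀ (m : ℕ) (G H : ℤ[X]), H.map (Int.castRingHom (ZMod ℓ)) ≠ 0 → HasOrder ℓ B g m G H →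
    m + N * a ≤ N * b + muMod ℓ H

/-- The negative terms: `ε (mu_K + ∑ lPart(deg v)) + 2 ∑ lPart(r i)`, where `v` runs through the places
in `A`, `mu_K` is the multiplicity of the root `1` modulo `ℓ` of the numerator `P` of the zeta function
of `K`, and `r i` is the degree of the field of constants of `L i`. -/
noncomputable def negTerm (ℓ : ℕ) (A : Finset (FF.Place k K)) (f : K[X]) (P : ℤ[X]) {ι : Type}
    [Fintype ι] (L : ι → Type) [∀ i, Field (L i)] [∀ i, Algebra k (L i)] : ℕ :=
  infTerm ℓ f.natDegree * (muMod ℓ P + ∑ v ∈ A, lPart ℓ (S.deg v)) +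
    2 * ∑ i, lPart ℓ (constDeg k (L i))

/-- The positive terms: `2 ε + ∑ mu_i + ∑ above_v`, where `mu_i` is the multiplicity of the root `1`
modulo `ℓ` of the numerator `P i` of the zeta function of `L i`, and `v` runs through the places in
`A`. -/
noncomputable def posTerm (ℓ : ℕ) (A : Finset (FF.Place k K)) (f : K[X]) {ι : Type}
    [Fintype ι] (P : ι → ℤ[X]) (L : ι → Type) [∀ i, Field (L i)] [∀ i, Algebra k (L i)]
    [∀ i, Algebra K (L i)] : ℕ :=
  2 * infTerm ℓ f.natDegree + ∑ i, muMod ℓ (P i) + ∑ v ∈ A, aboveTerm ℓ L v

/-- There is only one field `L i`, the degree of `f` is not divisible by `ℓ` (so that `x = ∞` is a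
branch point), the class number of `L i` is not divisible by `ℓ`, and there is only one place of
`L i` over every place in `A`. -/
structure IsSimple (ℓ : ℕ) (A : Finset (FF.Place k K)) (f : K[X]) {ι : Type} (L : ι → Type)
    [∀ i, Field (L i)] [∀ i, Algebra k (L i)] [∀ i, Algebra K (L i)] : Prop where
  single : Subsingleton ι
  degree : ¬ ℓ ∣ f.natDegree
  classNumber : ∀ i, ¬ ℓ ∣ S.classNumber k (L i)
  place : ∀ v ∈ A, ∀ i, ∀ w w' : FF.Place k (L i),
    (∃ e, LiesOver w v e) → (∃ e, LiesOver w' v e) → w = w'

/-- The polynomial `D(t) (F(x) - t)` in `x`, for an element `t` of an extension of `k`. -/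
noncomputable def pencil (F D : k[X]) (t : K) : K[X] :=
  C (aeval t D) * (F.map (algebraMap k K) - C t)

/-- The poles of `t` and the zeros of the elements `P(t)`, `P` in `S`. -/
def badSet (S : Finset (ClosedPt k)) (t : K) : Set (FF.Place k K) :=
  {w | w.ord t < 0 ∨ ∃ P ∈ S, 0 < w.ord (aeval t P.1)}

end defs

/-- The degree of `F` is not divisible by `ℓ`, its derivative is not zero, and `D` is a polynomial
different from zero with prime factors in `S`. -/
structure IsPencil {k : Type} [Field k] (ℓ : ℕ) (S : Finset (ClosedPt k)) (F D : k[X]) : Prop where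
  degree : ¬ ℓ ∣ F.natDegree
  derivative : derivative F ≠ 0
  ne_zero : D ≠ 0
  factors : ∀ P : ClosedPt k, P.1 ∣ D → P ∈ S

/-- `P` is the numerator of the zeta function of `F` and its value at `1` is the class number. -/
def IsNumerator (k F : Type) [Field k] [Field F] [Algebra k F] (P : ℤ[X]) : Prop :=
  S.IsZetaNum k F P ∧ P.eval 1 = S.classNumber k F

end Pool.Agent.J6H24.ST
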