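import Pool.Agent.J6H24.ST.Fld
import Pool.Agent.J6H24.ST.Stm
import Pool.Agent.W313.Hyp.Stmt

/-!
The `L`-function as a product over the places, modulo `ℓ`.
-/

set_option autoImplicit false
set_option linter.all false
set_option maxHeartbeats 4000000

open PowerSeries FF Module

namespace Pool.Agent.J6H24.ST

open Pool.Agent.W343.BSD
open Pool.Agent.W313.Hyp (MI facs facs' mem_facs eulerProd_sigma eulerProd_subtype
  finite_deg_le finite_d sigma_finite)
open Pool.Agent.TH639.SE (lf red locL locL_red locL_mod_one lf_mod red_lf pow_one_mod one_sub_mod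
  one_sub_ne eulerProd_pow)

section loc

variable {ℓ : ℕ}

theorem ef_branch {n : ℕ} {z p : Prop} (hz : z) : eulerFactor ℓ n z p = 1 := by
  unfold eulerFactor
  rw [if_pos hz]

theorem ef_mod (hℓ : 0 < ℓ) (n : ℕ) (z p : Prop) :
    (X : PowerSeries ℤ) ^ n ∣ eulerFactor ℓ n z p - 1 := by
  unfold eulerFactor
  split_ifs
  · rw [sub_self]; exact dvd_zero _
  · exact pow_one_mod (one_sub_mod le_rfl) _
  · obtain ⟨m, rfl⟩ : ∃ m, ℓ = m + 1 := ⟨ℓ - 1, by omega⟩
    rw [Finset.sum_range_succ', pow_zero, add_sub_cancel_right]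
    refine Finset.dvd_sum fun i _ => ?_
    rw [pow_succ]
    exact dvd_mul_left _ _

theorem red_ef [hp : Fact ℓ.Prime] {n : ℕ} (hn : 0 < n) {z p : Prop} (h : ¬ z) :
    red ℓ (eulerFactor ℓ n z p) = (1 - X ^ n) ^ (ℓ - 1) := by
  unfold eulerFactor
  rw [if_neg h]
  split_ifs
  · rw [map_pow, map_sub, map_one, map_pow, PowerSeries.map_X]
  · have h1 : red ℓ (∑ i ∈ Finset.range ℓ, (X ^ n) ^ i) =
        ∑ i ∈ Finset.range ℓ, (X ^ n : PowerSeries (ZMod ℓ)) ^ i := by
      rw [map_sum]
      refine Finset.sum_congr rfl fun i _ => ?_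
      rw [map_pow, map_pow, PowerSeries.map_X]
    rw [h1]
    apply mul_left_cancel₀ (one_sub_ne (R := ZMod ℓ) hn)
    rw [mul_neg_geom_sum, TH639.SE.one_sub_pow, ← pow_succ', Nat.sub_add_cancel hp.out.one_lt.le]

/-- one if the point at infinity is not a branch point -/
def eps (ℓ n : ℕ) : ℕ := if ℓ ∣ n then 1 else 0

end loc

section rp

variable {k K : Type} [Field k] [Field K] [Algebra k K]

/-- the reduction of a polynomial -/
noncomputable def rp (v : Place k K) (g : Polynomial K) : Polynomial v.RF :=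
  ∑ i ∈ Finset.range (g.natDegree + 1), Polynomial.monomial i (v.red (g.coeff i))

theorem rp_eq (v : Place k K) (g : Polynomial K) : redPoly v g = rp v g := rfl

end rp

section glob

variable {k K : Type} [Field k] [Finite k] [Field K] [Algebra k K] [FF.IsFF k K] {ℓ : ℕ}

theorem redInf [hp : Fact ℓ.Prime] (g : Polynomial K) (v : Place k K) :
    red ℓ (factorInf ℓ g v) = (1 - X ^ v.deg) ^ (eps ℓ g.natDegree * (ℓ - 1)) := by
  unfold factorInf eps
  by_cases h : ℓ ∣ g.natDegree
  · rw [red_ef (by rw [S.deg_eq]; exact deg_pos' v) (not_not.2 h), if_pos h, one_mul, S.deg_eq]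
  · rw [ef_branch h, if_neg h, zero_mul, pow_zero, map_one]

/-- the two descriptions of the closed points -/
def ptEquiv (B : Set (Place k K)) :
    PtOutside B ≃ (Σ v : {v : Place k K // v ∉ B}, MI v.1.RF) where
  toFun z := ⟨⟨z.place, z.outside⟩, z.pt⟩
  invFun y := ⟨y.1.1, y.1.2, y.2⟩
  left_inv _ := rfl
  right_inv _ := rfl

theorem sub_fin (B : Set (Place k K)) (n : ℕ) :
    {i : {v : Place k K // v ∉ B} | i.1.deg ≤ n}.Finite :=
  Set.Finite.of_finite_image (f := fun i : {v : Place k K // v ∉ B} => i.1)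
      ((places_fin n).subset (by rintro _ ⟨i, hi, rfl⟩; exact hi))
      (Set.injOn_of_injective Subtype.val_injective)

theorem pts_finite (B : Set (Place k K)) (n : ℕ) :
    {y : (Σ v : {v : Place k K // v ∉ B}, MI v.1.RF) |
      y.1.1.deg * y.2.1.natDegree ≤ n}.Finite := by
  have hfv : ∀ v : Place k K, Finite v.RF := finite_RF
  exact sigma_finite (ι := {v : Place k K // v ∉ B}) (κ := fun v => MI v.1.RF)
    (d := fun v => v.1.deg) (e := fun v P => P.1.natDegree)
    (fun n => sub_fin B n)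
    (fun v => deg_pos' v.1) (fun v n => finite_deg_le n) (fun v P => MI.deg_pos P) n

open Classical in
/-- the product of the factors over one place -/
noncomputable def wv (ℓ : ℕ) (B : Set (Place k K)) (g : Polynomial K) (v : Place k K) :
    PowerSeries ℤ :=
  if v ∉ B then locL ℓ (rp v g) v.deg * factorInf ℓ g v else 1

open Classical in
theorem LOutside_eq (hℓ : 0 < ℓ) (B : Set (Place k K)) (g : Polynomial K) :
    LOutside ℓ B g = eulerProd (fun v : Place k K => v.deg) (wv ℓ B g) := by
  have hfv : ∀ v : Place k K, Finite v.RF := finite_RF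
  have hm1 : ∀ v : Place k K, (X : PowerSeries ℤ) ^ v.deg ∣ locL ℓ (rp v g) v.deg - 1 :=
    fun v => locL_mod_one hℓ (rp v g) (deg_pos' v)
  have hm2 : ∀ v : Place k K, (X : PowerSeries ℤ) ^ v.deg ∣ factorInf ℓ g v - 1 := fun v => by
    unfold factorInf
    rw [S.deg_eq]
    exact ef_mod hℓ _ _ _
  have e1 : eulerProd (fun z : PtOutside B => z.deg) (fun z => factorAt ℓ g z) =
      eulerProd (fun v : Place k K => v.deg)
        (fun v => if v ∉ B then locL ℓ (rp v g) v.deg else 1) := by
    have h1 := eulerProd_equiv (R := ℤ) (ptEquiv B) (fun y => y.1.1.deg * y.2.1.natDegree)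
      (pts_finite B) (fun y => lf (F := y.1.1.RF) ℓ (rp y.1.1 g) y.2.1
        (y.1.1.deg * y.2.1.natDegree))
    have h2 : eulerProd (fun z : PtOutside B => z.deg) (fun z => factorAt ℓ g z) =
        eulerProd (fun i : PtOutside B => (ptEquiv B i).1.1.deg * (ptEquiv B i).2.1.natDegree)
          (fun i => lf (F := (ptEquiv B i).1.1.RF) ℓ (rp (ptEquiv B i).1.1 g)
            (ptEquiv B i).2.1 ((ptEquiv B i).1.1.deg * (ptEquiv B i).2.1.natDegree)) := by
      have e1 : (fun z : PtOutside B => z.deg) = fun z => (ptEquiv B z).1.1.deg *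
          (ptEquiv B z).2.1.natDegree := by
        funext z
        show S.deg z.place * z.pt.1.natDegree = _
        rw [S.deg_eq]
        rfl
      rw [← e1]
      congr 1
      funext z
      have e3 : (ptEquiv B z).1.1.deg * (ptEquiv B z).2.1.natDegree = z.deg :=
        (congrFun e1 z).symm
      rw [e3]
      rfl
    rw [h2, h1]
    rw [eulerProd_sigma (ι := {v : Place k K // v ∉ B}) (κ := fun v => MI v.1.RF)
      (d := fun v => v.1.deg) (e := fun v P => P.1.natDegree)
      (fun n => sub_fin B n)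
      (fun v => deg_pos' v.1) (fun v n => finite_deg_le n) (fun v P => MI.deg_pos P) _
      (fun p => lf_mod hℓ _ _ _)]
    exact eulerProd_subtype (fun v : Place k K => v ∉ B) (d := fun v => v.deg)
      (fun n => places_fin n) (f := fun v => locL ℓ (rp v g) v.deg)
      (fun v _ => hm1 v)
  have e2 : eulerProd (fun v : {v : Place k K // v ∉ B} => S.deg v.1)
      (fun v => factorInf ℓ g v.1) = eulerProd (fun v : Place k K => v.deg)
        (fun v => if v ∉ B then factorInf ℓ g v else 1) := by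
    simp only [S.deg_eq]
    exact eulerProd_subtype (fun v : Place k K => v ∉ B) (d := fun v => v.deg)
      (fun n => places_fin n) (f := fun v => factorInf ℓ g v)
      (fun v _ => hm2 v)
  unfold LOutside
  rw [e1, e2, ← eulerProd_mul (fun n => places_fin n)]
  · congr 1
    funext v
    unfold wv
    by_cases hv : v ∉ B
    · rw [if_pos hv, if_pos hv, if_pos hv]
    · rw [if_neg hv, if_neg hv, if_neg hv, mul_one]
  · intro v
    by_cases hv : v ∉ B
    · rw [if_pos hv]; exact hm1 v
    · rw [if_neg hv, sub_self]; exact dvd_zero _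
  · intro v
    by_cases hv : v ∉ B
    · rw [if_pos hv]; exact hm2 v
    · rw [if_neg hv, sub_self]; exact dvd_zero _

theorem wv_mod (hℓ : 0 < ℓ) (B : Set (Place k K)) (g : Polynomial K) (v : Place k K) :
    (X : PowerSeries ℤ) ^ v.deg ∣ wv ℓ B g v - 1 := by
  have hfv : ∀ v : Place k K, Finite v.RF := finite_RF
  unfold wv
  by_cases hv : v ∉ B
  · rw [if_pos hv]
    refine one_mod_mul (locL_mod_one hℓ (rp v g) (deg_pos' v)) ?_
    unfold factorInf
    rw [S.deg_eq]
    exact ef_mod hℓ _ _ _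
  · rw [if_neg hv, sub_self]; exact dvd_zero _

theorem redwv_mod (hℓ : 0 < ℓ) (B : Set (Place k K)) (g : Polynomial K) (v : Place k K) :
    (X : PowerSeries (ZMod ℓ)) ^ v.deg ∣ red ℓ (wv ℓ B g v) - 1 := by
  have h3 := map_dvd (red ℓ) (wv_mod hℓ B g v)
  rwa [map_sub, map_one, map_pow, PowerSeries.map_X] at h3

theorem red_L (hℓ : 0 < ℓ) (B : Set (Place k K)) (g : Polynomial K) :
    red ℓ (LOutside ℓ B g) =
      eulerProd (fun v : Place k K => v.deg) (fun v => red ℓ (wv ℓ B g v)) := by
  rw [LOutside_eq hℓ B g, map_eulerProd (fun n => places_fin n)]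

theorem card_RF (hq : ((Nat.card k : ℕ) : ZMod ℓ) = 1) (v : Place k K) :
    ((Nat.card v.RF : ℕ) : ZMod ℓ) = 1 := by
  have hvfin : Module.Finite k v.RF := Module.finite_of_finrank_pos (deg_pos' v)
  rw [Module.natCard_eq_pow_finrank (K := k) (V := v.RF)]
  push_cast
  rw [hq, one_pow]

/-- the local identity -/
theorem wv_red [Fact ℓ.Prime] (hq : ((Nat.card k : ℕ) : ZMod ℓ) = 1) {B : Set (Place k K)}
    {g : Polynomial K} {v : Place k K} (hv : v ∉ B) (h0 : rp v g ≠ 0) :
    red ℓ (wv ℓ B g v) * (∏ Q ∈ facs' v (rp v g), (1 - X ^ (v.deg * Q.1.natDegree))) ^ (ℓ - 1)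
      = (1 - X ^ v.deg) ^ ((1 + eps ℓ g.natDegree) * (ℓ - 1)) := by
  have hfv : Finite v.RF := finite_RF v
  unfold wv
  rw [if_pos hv, map_mul, redInf]
  have h1 := locL_red (ℓ := ℓ) (F := v.RF) (card_RF hq v) (g := rp v g) h0 (deg_pos' v)
  rw [add_mul, one_mul, pow_add, ← h1]
  have h2 : facs' v (rp v g) = facs (rp v g) := rfl
  rw [h2, mul_right_comm]

theorem wv_in {B : Set (Place k K)} {g : Polynomial K} {v : Place k K} (hv : v ∈ B) :
    wv ℓ B g v = 1 := by
  unfold wv
  rw [if_neg (not_not.2 hv)]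

end glob

end Pool.Agent.J6H24.ST
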