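import Pool.Agent.J6H24.ST.Tow
import Pool.Agent.W313.Hyp.KD3

/-!
The places over a place at which the order generated by a root of a polynomial is maximal.
-/

set_option autoImplicit false
set_option linter.all false
set_option maxHeartbeats 4000000

open Module FF Polynomial

namespace Pool.Agent.J6H24.ST

open Pool.Agent.W343.BSD Pool.Agent.H123R3.ZT
open Pool.Agent.W313.Hyp (MI facs mem_facs IsFam exists_factors exists_factor exists_place resMap_eq
  red_eval reg_theta)

section mult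

variable {F : Type} [Field F]

open Classical in
/-- the multiplicity of a prime factor -/
noncomputable def mlt (P g : F[X]) : ℕ := (UniqueFactorizationMonoid.normalizedFactors g).count P

theorem sum_facs_mlt [Finite F] {g : F[X]} (hg : g.Monic) :
    ∑ P ∈ facs g, mlt P.1 g * P.1.natDegree = g.natDegree := by
  classical
  have hg0 := hg.ne_zero
  have hmem : ∀ P, P ∈ UniqueFactorizationMonoid.normalizedFactors g ↔
      Irreducible P ∧ P.Monic ∧ P ∣ g := fun P => Polynomial.mem_normalizedFactors_iff hg0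
  have hprod : (UniqueFactorizationMonoid.normalizedFactors g).prod = g := by
    have h1 := Polynomial.leadingCoeff_mul_prod_normalizedFactors g
    rwa [hg.leadingCoeff, C_1, one_mul] at h1
  have hdeg : ((UniqueFactorizationMonoid.normalizedFactors g).map natDegree).sum =
      g.natDegree := by
    rw [← natDegree_multiset_prod_of_monic _ (fun P hP => ((hmem P).1 hP).2.1), hprod]
  have him : (facs g).image Subtype.val =
      (UniqueFactorizationMonoid.normalizedFactors g).toFinset := by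
    ext P
    rw [Finset.mem_image, Multiset.mem_toFinset, hmem]
    constructor
    · rintro ⟨Q, hQ, rfl⟩
      rw [mem_facs hg0] at hQ
      exact ⟨Q.2.2, Q.2.1, hQ⟩
    · intro hP
      exact ⟨⟨P, hP.2.1, hP.1⟩, (mem_facs hg0 _).2 hP.2.2, rfl⟩
  rw [← hdeg, Finset.sum_multiset_map_count, ← him,
    Finset.sum_image (fun _ _ _ _ h => Subtype.ext h)]
  refine Finset.sum_congr rfl fun P _ => ?_
  rw [smul_eq_mul]
  rfl

theorem mlt_of_pow {P : MI F} {g h : F[X]} (hg : g ≠ 0) {m : ℕ} (e : g = P.1 ^ m * h)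
    (hh : ¬ P.1 ∣ h) : mlt P.1 g = m := by
  classical
  have hh0 : h ≠ 0 := by
    rintro rfl
    exact hh (dvd_zero _)
  unfold mlt
  rw [e, UniqueFactorizationMonoid.normalizedFactors_mul (pow_ne_zero m P.2.2.ne_zero) hh0,
    UniqueFactorizationMonoid.normalizedFactors_pow, Multiset.count_add, Multiset.count_nsmul,
    UniqueFactorizationMonoid.normalizedFactors_irreducible P.2.2, P.2.1.normalize_eq_self,
    Multiset.count_singleton_self, mul_one, Multiset.count_eq_zero_of_notMem, add_zero]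
  intro hmem
  exact hh ((Polynomial.mem_normalizedFactors_iff hh0).1 hmem).2.2

theorem mlt_pos {P : MI F} {g : F[X]} (hg : g ≠ 0) (h : P.1 ∣ g) : 0 < mlt P.1 g := by
  classical
  unfold mlt
  rw [Multiset.count_pos]
  exact (Polynomial.mem_normalizedFactors_iff hg).2 ⟨P.2.2, P.2.1, h⟩

theorem mlt_le_one {P : MI F} {g : F[X]} (hg : g ≠ 0) (h : ¬ P.1 ^ 2 ∣ g) : mlt P.1 g ≤ 1 := by
  classical
  by_contra hcon
  push Not at hcon
  apply h
  have h1 : Multiset.replicate 2 P.1 ≤ UniqueFactorizationMonoid.normalizedFactors g :=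
    Multiset.le_count_iff_replicate_le.1 hcon
  have h2 := Multiset.prod_dvd_prod_of_le h1
  rw [Multiset.prod_replicate] at h2
  exact h2.trans (UniqueFactorizationMonoid.prod_normalizedFactors hg).dvd

end mult

section kd

variable {k K : Type} [Field k] [Field K] [Algebra k K] [Finite k] [FF.IsFF k K] {ι : Type}
  [Fintype ι] {L : ι → Type} [∀ i, Field (L i)] [∀ i, Algebra k (L i)] [∀ i, Algebra K (L i)]
  [∀ i, IsScalarTower k K (L i)]

/-- the order generated by a root of `F` is maximal at the point `P` -/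
def RegO (v : Place k K) (F : v.O[X]) (P : MI v.RF) : Prop :=
  ∃ (t : K) (ht : v.Reg t) (q h r : v.O[X]) (m : ℕ), v.ord t = 1 ∧
    F = q ^ m * h + C (⟨t, ht⟩ : v.O) * r ∧ q.map v.resHom = P.1 ∧ ¬ P.1 ∣ h.map v.resHom ∧
      ¬ P.1 ∣ r.map v.resHom

theorem map_t {v : Place k K} {t : K} (ht : v.Reg t) (h1 : v.ord t = 1) :
    v.resHom (⟨t, ht⟩ : v.O) = 0 := by
  rw [← v.red_of_reg ht, v.red_eq_zero_iff ht]
  exact Or.inr (by omega)

/-- the ramification index at a point where the order is maximal -/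
theorem le_ram {L' : Type} [Field L'] [Algebra k L'] [Algebra K L'] [IsScalarTower k K L']
    [FF.IsFF k L'] {v : Place k K} {w : Place k L'} {e : ℕ} (h : Over w v e) {θ : L'} {F : v.O[X]}
    (hF : F.Monic) (hθ : eval₂ ((algebraMap K L').comp v.O.subtype) θ F = 0) {P : MI v.RF}
    (hP : eval₂ h.resMap.toRingHom (w.red θ) P.1 = 0) (hreg : RegO v F P) :
    mlt P.1 (F.map v.resHom) ≤ e := by
  obtain ⟨t, ht, q, a, r, m, ht1, hFe, hq, ha, hr⟩ := hreg
  let _ : Algebra v.RF w.RF := h.resMap.toRingHom.toAlgebra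
  have hθr : w.Reg θ := reg_theta h hF hθ
  have hne : ∀ G : v.O[X], ¬ P.1 ∣ G.map v.resHom →
      eval₂ ((algebraMap K L').comp v.O.subtype) θ G ≠ 0 ∧
      w.ord (eval₂ ((algebraMap K L').comp v.O.subtype) θ G) = 0 := by
    intro G hG
    obtain ⟨h1, h2⟩ := red_eval h hθr G
    have h3 : w.red (eval₂ ((algebraMap K L').comp v.O.subtype) θ G) ≠ 0 := by
      rw [h2]
      intro h0
      apply hG
      have h4 : minpoly v.RF (w.red θ) = P.1 :=
        (minpoly.eq_of_irreducible_of_monic P.2.2 hP P.2.1).symm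
      rw [← h4]
      exact minpoly.dvd _ _ h0
    have h4 := (w.red_eq_zero_iff h1).not.1 h3
    rw [not_or] at h4
    refine ⟨h4.1, ?_⟩
    have h5 := (w.reg_iff h4.1).1 h1
    omega
  obtain ⟨ha0, ha1⟩ := hne a ha
  obtain ⟨hr0, hr1⟩ := hne r hr
  have hFmap : F.map v.resHom = P.1 ^ m * a.map v.resHom := by
    rw [hFe, Polynomial.map_add, Polynomial.map_mul, Polynomial.map_pow, hq, Polynomial.map_mul,
      Polynomial.map_C, map_t ht ht1, C_0, zero_mul, add_zero]
  rw [mlt_of_pow (hF.map v.resHom).ne_zero hFmap ha]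
  rw [hFe, eval₂_add, eval₂_mul, eval₂_pow, eval₂_mul, eval₂_C] at hθ
  set Q := eval₂ ((algebraMap K L').comp v.O.subtype) θ q with hQ
  set a' := eval₂ ((algebraMap K L').comp v.O.subtype) θ a with ha'
  set r' := eval₂ ((algebraMap K L').comp v.O.subtype) θ r with hr'
  have ht' : ((algebraMap K L').comp v.O.subtype) (⟨t, ht⟩ : v.O) = algebraMap K L' t := rfl
  rw [ht'] at hθ
  have hv0 : v.ord (0 : K) = 0 := v.ord_zero
  have ht0 : t ≠ 0 := by
    rintro rfl
    rw [hv0] at ht1
    exact zero_ne_one ht1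
  have htw : w.ord (algebraMap K L' t) = e := by
    rw [h.2 t, ht1, mul_one]
  have ht0' : algebraMap K L' t ≠ 0 := (_root_.map_ne_zero _).2 ht0
  have h5 : Q ^ m * a' = - (algebraMap K L' t * r') := by linear_combination hθ
  rcases Nat.eq_zero_or_pos m with hm | hm
  · rw [hm]; exact Nat.zero_le e
  have hQ0 : Q ≠ 0 := by
    rintro h0
    rw [h0, zero_pow hm.ne', zero_mul] at h5
    exact mul_ne_zero ht0' hr0 (neg_eq_zero.1 h5.symm)
  have h6 : w.ord (Q ^ m * a') = m * w.ord Q := by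
    rw [w.ord_mul (pow_ne_zero m hQ0) ha0, ha1, add_zero, w.ord_pow]
  have h7 : w.ord (- (algebraMap K L' t * r')) = e := by
    rw [w.ord_neg, w.ord_mul ht0' hr0, hr1, htw, add_zero]
  rw [h5, h7] at h6
  have h8 : w.red Q = 0 := by
    rw [(red_eval h hθr q).2, hq]
    exact hP
  have h9 : 0 < w.ord Q := by
    rcases (w.red_eq_zero_iff (red_eval h hθr q).1).1 h8 with h10 | h10
    · exact absurd h10 hQ0
    · exact h10
  have h11 : (m : ℤ) * 1 ≤ m * w.ord Q := mul_le_mul_of_nonneg_left (by omega) (by omega)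
  have h12 : (m : ℤ) ≤ e := by rw [h6]; omega
  exact_mod_cast h12

theorem kd_reg {f : K[X]} {θ : ∀ i, L i} (h : IsFam f θ) (v : Place k K) {F : v.O[X]}
    (hF : F.map v.O.subtype = f)
    (hreg : ∀ P : MI v.RF, P.1 ^ 2 ∣ F.map v.resHom → RegO v F P)
    {S : ∀ i, Finset (Place k (L i))} {e d : (Σ i, Place k (L i)) → ℕ} (D : FiberData v S e d)
    {M : Type*} [CommMonoid M] (φ : ℕ → M) :
    ∏ i, ∏ w ∈ S i, φ w.deg = ∏ P ∈ facs (F.map v.resHom), φ (v.deg * P.1.natDegree) := by
  classical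
  have hFm : F.Monic := monic_of_injective Subtype.val_injective (by
    have := h.monic
    rw [← hF] at this
    exact this)
  have hvdeg : 0 < v.deg := deg_pos' v
  have hvfin : Module.Finite k v.RF := Module.finite_of_finrank_pos hvdeg
  have hfinRF : Finite v.RF := Module.finite_of_finite k
  have hFbm : (F.map v.resHom).Monic := hFm.map _
  have hn : (F.map v.resHom).natDegree = f.natDegree := by
    rw [hFm.natDegree_map, ← hF, hFm.natDegree_map]
  have hfd := h.fd
  have hsp := h.sep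
  have hFF : ∀ i, FF.IsFF k (L i) := fun i => isFF_of_finite (K := K)
  have hroot : ∀ i, eval₂ ((algebraMap K (L i)).comp v.O.subtype) (θ i) F = 0 := by
    intro i
    have h1 := h.root i
    rw [← hF, aeval_def, eval₂_map] at h1
    exact h1
  obtain ⟨Mi, hM1, hM2, hM3⟩ := exists_factors h v hF
  have hr : ∀ j : Σ i, Place k (L i), j ∈ Finset.univ.sigma S → ∃ P : MI v.RF,
      P.1 ∣ F.map v.resHom ∧ P.1.natDegree ≤ d j ∧
      ∀ Q : MI v.RF, (∃ (e' : ℕ) (hov : Over j.2 v e'),
        eval₂ hov.resMap.toRingHom (j.2.red (θ j.1)) Q.1 = 0) → Q = P := by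
    rintro ⟨i, w⟩ hj
    rw [Finset.mem_sigma] at hj
    obtain ⟨P, hP1, hP2, hP3⟩ := exists_factor (D.isOver i w hj.2) hFm (hroot i) (D.deg i w hj.2)
    refine ⟨P, hP1, hP2, ?_⟩
    rintro Q ⟨e', hov, hQ⟩
    apply hP3 Q
    rwa [resMap_eq (D.isOver i w hj.2) hov]
  have hs : ∀ P : MI v.RF, P.1 ∣ F.map v.resHom → ∃ j : Σ i, Place k (L i),
      j ∈ Finset.univ.sigma S ∧ ∃ (e' : ℕ) (hov : Over j.2 v e'),
        eval₂ hov.resMap.toRingHom (j.2.red (θ j.1)) P.1 = 0 := by
    intro P hP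
    rw [← hM3, Polynomial.map_prod] at hP
    obtain ⟨i, -, hi⟩ := (P.2.2.prime.dvd_finset_prod_iff _).1 hP
    obtain ⟨w, e', hov, hw⟩ := exists_place v (θ i) (Mi i) (hM1 i) (hM2 i) P.1 P.2.2 hi
    exact ⟨⟨i, w⟩, Finset.mem_sigma.2 ⟨Finset.mem_univ _, D.mem i w e' hov⟩, e', hov, hw⟩
  let A := facs (F.map v.resHom)
  have hA : ∀ P, P ∈ A ↔ P.1 ∣ F.map v.resHom := mem_facs hFbm.ne_zero
  have hne : Nonempty (MI v.RF) := ⟨⟨X, monic_X, irreducible_X⟩⟩
  choose! rr hr1 hr2 hr3 using hr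
  have hs' : ∀ P : {P // P ∈ A}, ∃ j : Σ i, Place k (L i),
      j ∈ Finset.univ.sigma S ∧ rr j = P.1 ∧ mlt P.1.1 (F.map v.resHom) ≤ e j := by
    rintro ⟨P, hP⟩
    obtain ⟨j, hj, hj'⟩ := hs P ((hA P).1 hP)
    refine ⟨j, hj, (hr3 j hj P hj').symm, ?_⟩
    have hjm : j.2 ∈ S j.1 := (Finset.mem_sigma.1 hj).2
    have hov := D.isOver j.1 j.2 hjm
    by_cases hP2 : P.1 ^ 2 ∣ F.map v.resHom
    · obtain ⟨e', hov', hQ⟩ := hj'
      rw [resMap_eq hov' hov] at hQ
      exact le_ram hov hFm (hroot j.1) hQ (hreg P hP2)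
    · exact (mlt_le_one hFbm.ne_zero hP2).trans hov.1
  choose s hs1 hs2 hs3 using hs'
  have hsinj : Function.Injective s := by
    intro P Q hPQ
    apply Subtype.ext
    rw [← hs2 P, ← hs2 Q, hPQ]
  have hpos := fiber_pos D
  have hsumZ : ∑ j ∈ Finset.univ.sigma S, e j * d j = f.natDegree := by
    rw [Finset.sum_sigma, ← h.sum]
    exact Finset.sum_congr rfl fun i _ => D.sum i
  have hsumA : ∑ P ∈ A, mlt P.1 (F.map v.resHom) * P.1.natDegree = f.natDegree := by
    rw [sum_facs_mlt hFbm, hn]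
  have himg : A.attach.image s ⊆ Finset.univ.sigma S := by
    intro j hj
    obtain ⟨P, -, rfl⟩ := Finset.mem_image.1 hj
    exact hs1 P
  have hle : ∀ P : {P // P ∈ A}, mlt P.1.1 (F.map v.resHom) * P.1.1.natDegree ≤
      e (s P) * d (s P) := by
    intro P
    have h1 := hr2 (s P) (hs1 P)
    rw [hs2 P] at h1
    exact Nat.mul_le_mul (hs3 P) h1
  have hsum1 : ∑ P ∈ A.attach, e (s P) * d (s P) = ∑ j ∈ A.attach.image s, e j * d j := by
    rw [Finset.sum_image (fun _ _ _ _ h => hsinj h)]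
  have hsum2 : ∑ j ∈ A.attach.image s, e j * d j ≤ ∑ j ∈ Finset.univ.sigma S, e j * d j :=
    Finset.sum_le_sum_of_subset himg
  have hsum3 : ∑ P ∈ A.attach, mlt P.1.1 (F.map v.resHom) * P.1.1.natDegree = f.natDegree := by
    rw [Finset.sum_attach A (fun P => mlt P.1 (F.map v.resHom) * P.1.natDegree)]
    exact hsumA
  have hsum4 : ∑ P ∈ A.attach, mlt P.1.1 (F.map v.resHom) * P.1.1.natDegree ≤
      ∑ P ∈ A.attach, e (s P) * d (s P) :=
    Finset.sum_le_sum fun P _ => hle P
  have heq : ∀ P : {P // P ∈ A}, mlt P.1.1 (F.map v.resHom) * P.1.1.natDegree =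
      e (s P) * d (s P) := by
    intro P
    exact (Finset.sum_eq_sum_iff_of_le (fun P _ => hle P)).1 (by omega) P (Finset.mem_attach _ _)
  have hall : A.attach.image s = Finset.univ.sigma S := by
    apply Finset.Subset.antisymm himg
    intro j hj
    by_contra hn'
    have h1 : ∑ x ∈ A.attach.image s, e x * d x + e j * d j ≤
        ∑ x ∈ Finset.univ.sigma S, e x * d x := by
      have h6 := Finset.sum_insert (f := fun x => e x * d x) hn'
      have h7 := Finset.sum_le_sum_of_subset (f := fun x => e x * d x)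
        (Finset.insert_subset hj himg)
      omega
    have h2 := hpos j hj
    have h3 : 0 < e j * d j := Nat.mul_pos h2.1 h2.2
    omega
  have hdeq : ∀ P : {P // P ∈ A}, (s P).2.deg = v.deg * P.1.1.natDegree := by
    intro P
    have h1 := hr2 (s P) (hs1 P)
    rw [hs2 P] at h1
    have h2 := heq P
    have h3 := hpos _ (hs1 P)
    have h4 : (s P).2.deg = v.deg * d (s P) := D.deg (s P).1 (s P).2 (by
      have := hs1 P
      rw [Finset.mem_sigma] at this
      exact this.2)
    rw [h4]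
    congr 1
    have h5 : mlt P.1.1 (F.map v.resHom) * d (s P) ≤ e (s P) * d (s P) :=
      Nat.mul_le_mul_right _ (hs3 P)
    rw [← h2] at h5
    have h6 : 0 < mlt P.1.1 (F.map v.resHom) := mlt_pos hFbm.ne_zero ((hA P.1).1 P.2)
    exact le_antisymm (Nat.le_of_mul_le_mul_left h5 h6) h1
  have e1 : ∏ i, ∏ w ∈ S i, φ w.deg = ∏ j ∈ Finset.univ.sigma S, φ j.2.deg := by
    rw [Finset.prod_sigma]
  rw [e1, ← hall, Finset.prod_image (fun _ _ _ _ h => hsinj h),
    Finset.prod_congr rfl (fun P _ => by rw [hdeq P]),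
    Finset.prod_attach A (fun P => φ (v.deg * P.1.natDegree))]

end kd

end Pool.Agent.J6H24.ST
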