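import Pool.Agent.J6H24.ST.Rat

/-!
The identity modulo `ℓ` for the coverings `y ^ ℓ = D(t) (F(x) - t)` of the line over `k(t)`.
-/

set_option autoImplicit false
set_option linter.all false
set_option maxHeartbeats 4000000

open PowerSeries FF Module

namespace Pool.Agent.J6H24.ST

open Pool.Agent.W343.BSD Pool.Agent.W309.RF
open Pool.Agent.W313.Hyp (MI facs facs' mem_facs finite_deg_le finite_d eq_of_dvd_MI)
open Pool.Agent.TH639.SE (red one_sub_ne eulerProd_pow one_sub_mod pow_one_mod IsMu zeta_line)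
open Pool.Agent.TH943.HJ (RF finRF comp_ne exists_over over_unique down_surj down_deg)
open Pool.Agent.TH943.LP (facs_unit)

section

variable {k : Type} [Field k] [Finite k] {ℓ : ℕ}

open Classical in
/-- the points of the line over a place -/
noncomputable def pts (F : Polynomial k) (v : Place k (RatFunc k)) : Finset (MI k) :=
  if h : 0 ≤ v.ord RatFunc.X then facs ((exists_pt h).choose.1.comp F) else ∅

theorem pts_plc (F : Polynomial k) (P : MI k) : pts F (plc P) = facs (P.1.comp F) := by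
  unfold pts
  rw [dif_pos (plc_fin P)]
  have h1 := (exists_pt (plc_fin P)).choose_spec.2.2
  have h2 : P = (exists_pt (plc_fin P)).choose := plc_inj h1
  rw [← h2]

theorem pts_inf (F : Polynomial k) : pts F (infty k) = ∅ := by
  unfold pts
  rw [dif_neg (not_le.2 infty_X)]

theorem cases_plc (v : Place k (RatFunc k)) : v = infty k ∨ ∃ P : MI k, v = plc P := by
  by_cases h : v = infty k
  · exact Or.inl h
  · obtain ⟨P, -, -, hP⟩ := exists_pt (fin_of_ne h)
    exact Or.inr ⟨P, hP⟩

theorem plc_ne (P : MI k) : plc P ≠ infty k := by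
  intro h
  have h1 := plc_fin P
  rw [h] at h1
  exact not_lt.2 h1 infty_X

theorem deg_le_pts {F : Polynomial k} (hF : 0 < F.natDegree) {P R : MI k}
    (hR : R ∈ facs (P.1.comp F)) : P.1.natDegree ≤ R.1.natDegree := by
  rw [mem_facs (comp_ne hF P)] at hR
  obtain ⟨Q, hQ, rfl⟩ := down_surj R hR
  rw [down_deg Q hQ]
  exact Nat.le_mul_of_pos_right _ Q.2.2.natDegree_pos

theorem euler_pts [Fact ℓ.Prime] (hq : ((Nat.card k : ℕ) : ZMod ℓ) = 1) {F : Polynomial k}
    (hF : 0 < F.natDegree) :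
    eulerProd (fun v : Place k (RatFunc k) => v.deg)
      (fun v => ∏ R ∈ pts F v, (1 - X ^ R.1.natDegree : PowerSeries (ZMod ℓ))) = 1 - X := by
  have h1 := zeta_line (ℓ := ℓ) hq (d := 1) one_pos
  simp only [one_mul, pow_one] at h1
  rw [← h1]
  refine eulerProd_fiber (fun n => places_fin n) (fun n => finite_deg_le (F := k) n)
    (fun R => one_sub_mod le_rfl) (fun v => pts F v) ?_ ?_ ?_
  · intro R
    obtain ⟨P, hP⟩ := exists_over (f := F) R
    refine ⟨plc P, ?_⟩
    rw [pts_plc, mem_facs (comp_ne hF P)]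
    exact hP
  · intro v v' R h h'
    rcases cases_plc v with rfl | ⟨P, rfl⟩
    · rw [pts_inf] at h
      exact absurd h (Finset.notMem_empty R)
    · rcases cases_plc v' with rfl | ⟨P', rfl⟩
      · rw [pts_inf] at h'
        exact absurd h' (Finset.notMem_empty R)
      · rw [pts_plc, mem_facs (comp_ne hF _)] at h h'
        rw [over_unique R P P' h h']
  · intro v R h
    rcases cases_plc v with rfl | ⟨P, rfl⟩
    · rw [pts_inf] at h
      exact absurd h (Finset.notMem_empty R)
    · rw [pts_plc] at h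
      rw [plc_deg]
      exact deg_le_pts hF h

theorem natDegree_pencil {E : Type} [Field E] [Algebra k E] {F D : Polynomial k} {t : E}
    (hD : Polynomial.aeval t D ≠ 0) : (pencil F D t).natDegree = F.natDegree := by
  unfold pencil
  rw [Polynomial.natDegree_C_mul hD, Polynomial.natDegree_sub_C,
    Polynomial.natDegree_map_eq_of_injective (algebraMap k E).injective]

theorem mem_bad {S : Finset (MI k)} {P : MI k} :
    plc P ∈ badSet S (RatFunc.X : RatFunc k) ↔ P ∈ S := by
  constructor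
  · rintro (h | ⟨Q, hQ, h⟩)
    · exact absurd h (not_lt.2 (plc_fin P))
    · rw [← A_aeval, plc_dvd P Q.2.2.ne_zero] at h
      rw [eq_of_dvd_MI h]
      exact hQ
  · intro h
    exact Or.inr ⟨P, h, by rw [← A_aeval]; exact plc_pos P⟩

theorem inf_bad {S : Finset (MI k)} : infty k ∈ badSet S (RatFunc.X : RatFunc k) :=
  Or.inl infty_X

open Classical in
/-- **the identity for the pencils over `k(t)`** -/
theorem pencil_identity [hp : Fact ℓ.Prime] (hq : ((Nat.card k : ℕ) : ZMod ℓ) = 1)
    {F D : Polynomial k} (hF : ¬ ℓ ∣ F.natDegree) {S : Finset (MI k)} (hD : D ≠ 0)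
    (hDS : ∀ P : MI k, P.1 ∣ D → P ∈ S) :
    red ℓ (LOutside ℓ (badSet S (RatFunc.X : RatFunc k)) (pencil F D (RatFunc.X : RatFunc k))) *
        (∏ P ∈ S, (1 - X ^ P.1.natDegree)) ^ (ℓ - 1) =
      (∏ P ∈ S, ∏ R ∈ facs (P.1.comp F), (1 - X ^ R.1.natDegree)) ^ (ℓ - 1) := by
  have hℓ := hp.out.pos
  have hF0 : 0 < F.natDegree := by
    rcases Nat.eq_zero_or_pos F.natDegree with h | h
    · exact absurd (by rw [h]; exact dvd_zero ℓ) hF
    · exact h
  set B : Set (Place k (RatFunc k)) := badSet S (RatFunc.X : RatFunc k) with hB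
  set g : Polynomial (RatFunc k) := pencil F D (RatFunc.X : RatFunc k) with hg
  have hAD : Polynomial.aeval (RatFunc.X : RatFunc k) D ≠ 0 := by
    rw [← A_aeval]; exact A_ne hD
  have heps : eps ℓ g.natDegree = 0 := by
    unfold eps
    rw [hg, natDegree_pencil hAD, if_neg hF]
  set Φ : Place k (RatFunc k) → PowerSeries (ZMod ℓ) :=
    fun v => ∏ R ∈ pts F v, (1 - X ^ R.1.natDegree) with hΦ
  set W : Place k (RatFunc k) → PowerSeries (ZMod ℓ) := fun v => red ℓ (wv ℓ B g v) with hW
  set Z : Place k (RatFunc k) → PowerSeries (ZMod ℓ) := fun v => 1 - X ^ v.deg with hZ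
  have hΦ1 : ∀ v, (X : PowerSeries (ZMod ℓ)) ^ v.deg ∣ Φ v - 1 := by
    intro v
    have h := prod_congr_mod (pts F v) (fun R => (1 - X ^ R.1.natDegree : PowerSeries (ZMod ℓ)))
      (fun _ => 1) v.deg (fun R hR => one_sub_mod (by
        rcases cases_plc v with rfl | ⟨P, rfl⟩
        · rw [pts_inf] at hR
          exact absurd hR (Finset.notMem_empty R)
        · rw [pts_plc] at hR
          rw [plc_deg]
          exact deg_le_pts hF0 hR))
    rwa [Finset.prod_const_one] at h
  have hW1 : ∀ v, (X : PowerSeries (ZMod ℓ)) ^ v.deg ∣ W v - 1 := fun v => redwv_mod hℓ _ g v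
  have hZ1 : ∀ v, (X : PowerSeries (ZMod ℓ)) ^ v.deg ∣ Z v - 1 := fun v => one_sub_mod le_rfl
  set T : Finset (Place k (RatFunc k)) := insert (infty k) (S.image plc) with hT
  have hTn : infty k ∉ S.image plc := by
    rw [Finset.mem_image]
    rintro ⟨P, -, h⟩
    exact plc_ne P h
  have hgood : ∀ v, v ∉ T → W v * Φ v ^ (ℓ - 1) = Z v ^ (ℓ - 1) := by
    intro v hv
    rcases cases_plc v with rfl | ⟨P, rfl⟩
    · exact absurd (Finset.mem_insert_self _ _) hv
    · have hPS : P ∉ S := fun h => hv (Finset.mem_insert_of_mem (Finset.mem_image_of_mem _ h))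
      have hPB : plc P ∉ B := fun h => hPS (mem_bad.1 h)
      have hu : (plc P).red (A D) ≠ 0 := by
        rw [Ne, (plc P).red_eq_zero_iff (fin_reg (plc_fin P) D)]
        rintro (h | h)
        · exact A_ne hD h
        · exact hPS (hDS P ((plc_dvd P hD).1 h))
      have hfv : Finite (plc P).RF := finite_RF (plc P)
      have h0 : rp (plc P) g ≠ 0 := by
        rw [hg, rp_pencil F D (plc_fin P)]
        exact mul_ne_zero (Polynomial.C_ne_zero.2 hu) (fibv_ne hF0 P)
      have h1 := wv_red hq hPB h0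
      rw [heps, add_zero, one_mul] at h1
      have h2 : facs' (plc P) (rp (plc P) g) = facs' (plc P) (fibv F (plc P)) := by
        rw [hg, rp_pencil F D (plc_fin P)]
        exact facs_unit (fibv_ne hF0 P) hu
      rw [h2, prod_fibv hF0 P (fun n => (1 - X ^ n : PowerSeries (ZMod ℓ)))] at h1
      have h3 : Φ (plc P) = ∏ R ∈ facs (P.1.comp F), (1 - X ^ R.1.natDegree) := by
        show ∏ R ∈ pts F (plc P), (1 - X ^ R.1.natDegree) = _
        rw [pts_plc]
      rw [h3]
      exact h1
  have key := fin_factor' (F := fun v => W v * Φ v ^ (ℓ - 1)) (W := fun v => Z v ^ (ℓ - 1))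
    (fun n => places_fin n) (fun v => one_mod_mul (hW1 v) (pow_one_mod (hΦ1 v) _))
    (fun v => pow_one_mod (hZ1 v) _) T hgood
  have hLS : red ℓ (LOutside ℓ B g) =
      eulerProd (fun v : Place k (RatFunc k) => v.deg) W := red_L hℓ _ g
  have hEZ : eulerProd (fun v : Place k (RatFunc k) => v.deg) Z = (1 - X) ^ 2 := by
    have h1 := num_modL (ℓ := ℓ) hq (P := 1) ((Pool.Agent.W343.BSD.S.isZetaNum_iff 1).1
      (isZetaNum_rat (k := k)))
    rwa [constDeg_rat, pow_one, Polynomial.map_one, Polynomial.coe_one, one_mul] at h1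
  rw [eulerProd_mul (fun n => places_fin n) hW1 (fun v => pow_one_mod (hΦ1 v) _),
    eulerProd_pow (fun n => places_fin n) hΦ1, eulerProd_pow (fun n => places_fin n) hZ1,
    hEZ, ← hLS, euler_pts hq hF0, hT, Finset.prod_insert hTn, Finset.prod_insert hTn,
    Finset.prod_image (fun _ _ _ _ h => plc_inj h), Finset.prod_image (fun _ _ _ _ h => plc_inj h)]
    at key
  have e1 : Z (infty k) = 1 - X := by
    show 1 - X ^ (infty k).deg = 1 - X
    rw [inf_deg infty_X, pow_one]
  have e2 : W (infty k) = 1 := by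
    show red ℓ (wv ℓ B g (infty k)) = 1
    rw [wv_in inf_bad, map_one]
  have e3 : Φ (infty k) = 1 := by
    show ∏ R ∈ pts F (infty k), (1 - X ^ R.1.natDegree) = 1
    rw [pts_inf, Finset.prod_empty]
  have e4 : ∏ P ∈ S, Z (plc P) ^ (ℓ - 1) = (∏ P ∈ S, (1 - X ^ P.1.natDegree)) ^ (ℓ - 1) := by
    rw [← Finset.prod_pow]
    refine Finset.prod_congr rfl fun P _ => ?_
    show (1 - X ^ (plc P).deg) ^ (ℓ - 1) = _
    rw [plc_deg]
  have e5 : ∏ P ∈ S, (W (plc P) * Φ (plc P) ^ (ℓ - 1)) =
      (∏ P ∈ S, ∏ R ∈ facs (P.1.comp F), (1 - X ^ R.1.natDegree)) ^ (ℓ - 1) := by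
    rw [← Finset.prod_pow]
    refine Finset.prod_congr rfl fun P hP => ?_
    have h1 : W (plc P) = 1 := by
      show red ℓ (wv ℓ B g (plc P)) = 1
      rw [wv_in (mem_bad.2 hP), map_one]
    have h3 : Φ (plc P) = ∏ R ∈ facs (P.1.comp F), (1 - X ^ R.1.natDegree) := by
      show ∏ R ∈ pts F (plc P), (1 - X ^ R.1.natDegree) = _
      rw [pts_plc]
    rw [h1, h3, one_mul]
  rw [e1, e2, e3, e4, e5, one_pow, one_mul, one_mul] at key
  have hne : ((1 - X : PowerSeries (ZMod ℓ)) ^ (ℓ - 1)) * (1 - X) ^ (ℓ - 1) ≠ 0 := by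
    have h1 := one_sub_ne (R := ZMod ℓ) (n := 1) one_pos
    rw [pow_one] at h1
    exact mul_ne_zero (pow_ne_zero _ h1) (pow_ne_zero _ h1)
  apply mul_left_cancel₀ hne
  rw [← pow_mul, mul_comm 2 (ℓ - 1), pow_mul] at key
  linear_combination key

end

end Pool.Agent.J6H24.ST
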