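import Pool.Agent.J6H24.ST.Bnd
import Pool.Agent.W309.RF.ZetaR

/-!
The coverings `y ^ ℓ = D(t) (F(x) - t)` of the line over `k(t)`.
-/

set_option autoImplicit false
set_option linter.all false
set_option maxHeartbeats 4000000

open FF Module

namespace Pool.Agent.J6H24.ST

open Pool.Agent.W343.BSD Pool.Agent.W309.RF Pool.Agent.H525R3.FFp
open Pool.Agent.W313.Hyp (MI facs facs' mem_facs finite_deg_le)
open Pool.Agent.TH639.SE (red one_sub_ne eulerProd_pow one_sub_mod pow_one_mod IsMu zeta_line)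
open Pool.Agent.TH943.HJ (RF finRF fd1 finrank_RF fib prod_local comp_ne fib_ne exists_over
  over_unique)

section

variable {k : Type} [Field k] [Finite k]

/-- a place at every closed point -/
theorem exists_place_at (P : MI k) : ∃ v : Place k (RatFunc k), 0 ≤ v.ord RatFunc.X ∧
    0 < v.ord (A P.1) := by
  by_contra hcon
  push Not at hcon
  have h0 : ddeg (divisor k (A P.1)) = 0 := ddeg_divisor _
  have h1 := ddeg_split (divisor k (A P.1)) (fun v hv => by
    have h2 := fin_of_ne hv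
    have h3 := hcon v h2
    have h4 : 0 ≤ v.ord (A P.1) := (v.reg_iff (A_ne P.2.2.ne_zero)).1 (fin_reg h2 P.1)
    rw [divisor_apply]
    omega)
  rw [h0, divisor_apply, inf_ord' infty_X P.2.2.ne_zero] at h1
  have := P.2.2.natDegree_pos
  omega

/-- the place at a closed point -/
noncomputable def plc (P : MI k) : Place k (RatFunc k) := (exists_place_at P).choose

theorem plc_fin (P : MI k) : 0 ≤ (plc P).ord RatFunc.X := (exists_place_at P).choose_spec.1

theorem plc_pos (P : MI k) : 0 < (plc P).ord (A P.1) := (exists_place_at P).choose_spec.2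

/-- the closed point of a place -/
theorem exists_pt {v : Place k (RatFunc k)} (h : 0 ≤ v.ord RatFunc.X) : ∃ P : MI k,
    (∀ p : Polynomial k, p ≠ 0 → (0 < v.ord (A p) ↔ P.1 ∣ p)) ∧ v.deg = P.1.natDegree ∧
      v = plc P := by
  obtain ⟨π, hm, hirr, hord, hnn, hdvd, hdeg⟩ := fin_exists h
  refine ⟨⟨π, hm, hirr⟩, hdvd, hdeg, ?_⟩
  exact fin_unique h (plc_fin _) hirr (by rw [hord]; norm_num) (plc_pos ⟨π, hm, hirr⟩)

theorem plc_dvd (P : MI k) {p : Polynomial k} (hp : p ≠ 0) :
    0 < (plc P).ord (A p) ↔ P.1 ∣ p := by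
  obtain ⟨Q, hQ, -, -⟩ := exists_pt (plc_fin P)
  have h1 := (hQ P.1 P.2.2.ne_zero).1 (plc_pos P)
  rw [hQ p hp, Pool.Agent.W313.Hyp.eq_of_dvd_MI h1]

theorem plc_deg (P : MI k) : (plc P).deg = P.1.natDegree := by
  obtain ⟨Q, hQ, hd, -⟩ := exists_pt (plc_fin P)
  have h1 := (hQ P.1 P.2.2.ne_zero).1 (plc_pos P)
  rw [hd, Pool.Agent.W313.Hyp.eq_of_dvd_MI h1]

theorem plc_inj : Function.Injective (plc (k := k)) := by
  intro P Q h
  have h1 := plc_pos P
  rw [h, plc_dvd Q P.2.2.ne_zero] at h1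
  exact (Pool.Agent.W313.Hyp.eq_of_dvd_MI h1).symm

/-- the residue fields -/
theorem res_iso (P : MI k) : ∃ ψ : RF P ≃+* (plc P).RF,
    (∀ c : k, ψ (algebraMap k (RF P) c) = algebraMap k (plc P).RF c) ∧
      ψ (AdjoinRoot.root P.1) = (plc P).red RatFunc.X := by
  have h := plc_fin P
  have h0 : Polynomial.aeval ((plc P).red RatFunc.X) P.1 = 0 := by
    have h1 := phi_eq h P.1
    unfold Pool.Agent.W309.RF.phi at h1
    rw [h1, ((plc P).red_eq_zero_iff (fin_reg h P.1))]
    exact Or.inr (plc_pos P)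
  let φ : RF P →ₐ[k] (plc P).RF := AdjoinRoot.liftAlgHom P.1 (Algebra.ofId k (plc P).RF)
    ((plc P).red RatFunc.X) h0
  have hfd1 : Module.Finite k (RF P) := fd1 P
  have hfd2 : Module.Finite k (plc P).RF := Module.finite_of_finrank_pos (deg_pos' (plc P))
  have hinj : Function.Injective φ := φ.toRingHom.injective
  have hfr : finrank k (RF P) = finrank k (plc P).RF := by
    rw [finrank_RF P]
    exact (plc_deg P).symm
  have hsurj : Function.Surjective φ :=
    (LinearMap.injective_iff_surjective_of_finrank_eq_finrank (f := φ.toLinearMap) hfr).1 hinj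
  refine ⟨RingEquiv.ofBijective φ.toRingHom ⟨hinj, hsurj⟩, fun c => φ.commutes c, ?_⟩
  show φ (AdjoinRoot.root P.1) = _
  exact AdjoinRoot.liftAlgHom_root _ _ _ _

/-- the fibre of `F(x) = t` over a place -/
noncomputable def fibv (F : Polynomial k) (v : Place k (RatFunc k)) : Polynomial v.RF :=
  F.map (algebraMap k v.RF) - Polynomial.C (v.red RatFunc.X)

theorem fibv_eq (F : Polynomial k) (P : MI k) (ψ : RF P ≃+* (plc P).RF)
    (h1 : ∀ c : k, ψ (algebraMap k (RF P) c) = algebraMap k (plc P).RF c)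
    (h2 : ψ (AdjoinRoot.root P.1) = (plc P).red RatFunc.X) :
    (fib F P).map ψ.toRingHom = fibv F (plc P) := by
  unfold fib fibv
  rw [Polynomial.map_sub, Polynomial.map_map, Polynomial.map_C]
  congr 2
  · ext c
    exact h1 c

theorem fibv_ne {F : Polynomial k} (hF : 0 < F.natDegree) (P : MI k) : fibv F (plc P) ≠ 0 := by
  obtain ⟨ψ, h1, h2⟩ := res_iso P
  rw [← fibv_eq F P ψ h1 h2]
  exact map_ne' ψ (fib_ne hF P)

theorem prod_fibv {M : Type} [CommMonoid M] {F : Polynomial k} (hF : 0 < F.natDegree) (P : MI k)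
    (φ : ℕ → M) :
    ∏ Q ∈ facs' (plc P) (fibv F (plc P)), φ ((plc P).deg * Q.1.natDegree) =
      ∏ R ∈ facs (P.1.comp F), φ R.1.natDegree := by
  obtain ⟨ψ, h1, h2⟩ := res_iso P
  have hf1 : Finite (RF P) := finRF P
  have hf2 : Finite (plc P).RF := finite_RF (plc P)
  rw [← prod_local F P (fib_ne hF P) (comp_ne hF P) φ, plc_deg P, ← fibv_eq F P ψ h1 h2]
  exact prod_facs_iso ψ (fib_ne hF P) (fun n => φ (P.1.natDegree * n))

/-- the reduction of the pencil -/
theorem rp_pencil (F D : Polynomial k) {v : Place k (RatFunc k)} (h : 0 ≤ v.ord RatFunc.X) :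
    rp v (pencil F D (RatFunc.X : RatFunc k)) = Polynomial.C (v.red (A D)) * fibv F v := by
  have hD : v.Reg (Polynomial.aeval (RatFunc.X : RatFunc k) D) := by
    rw [← A_aeval]; exact fin_reg h D
  have hX : v.Reg (RatFunc.X : RatFunc k) := Or.inr h
  have hc : ∀ i, v.Reg ((Polynomial.C (RatFunc.X : RatFunc k)).coeff i) := by
    intro i
    rw [Polynomial.coeff_C]
    split_ifs
    · exact hX
    · exact v.reg_zero
  ext i
  rw [rp_coeff]
  unfold pencil fibv
  rw [Polynomial.coeff_C_mul, Polynomial.coeff_C_mul, Polynomial.coeff_sub, Polynomial.coeff_sub,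
    Polynomial.coeff_map, Polynomial.coeff_map, A_aeval]
  have h1 : v.Reg (algebraMap k (RatFunc k) (F.coeff i) -
      (Polynomial.C (RatFunc.X : RatFunc k)).coeff i) := by
    rw [sub_eq_add_neg]
    exact v.reg_add (v.reg_const _) (v.reg_neg (hc i))
  rw [v.red_mul hD h1, v.red_sub (v.reg_const _) (hc i)]
  congr 1
  rw [Polynomial.coeff_C, Polynomial.coeff_C]
  split_ifs
  · rfl
  · rw [v.red_zero]; rfl

end

end Pool.Agent.J6H24.ST
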