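import Pool.Agent.J6H24.ST.KDR
import Pool.Agent.W313.Hyp.Bound

/-!
The bound for the order of vanishing in terms of the zeta functions of the fields of the branch
points.
-/

set_option autoImplicit false
set_option linter.all false
set_option maxHeartbeats 4000000

open PowerSeries FF Module

namespace Pool.Agent.J6H24.ST

open Pool.Agent.W343.BSD
open Pool.Agent.W313.Hyp (MI facs facs' mem_facs IsFam kd_prod exists_lift)
open Pool.Agent.TH639.SE (red one_sub_ne eulerProd_pow one_sub_mod pow_one_mod IsMu)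

section poly

variable {k K : Type} [Field k] [Finite k] [Field K] [Algebra k K] [FF.IsFF k K] {ℓ : ℕ}

theorem rp_lift (v : Place k K) (F : Polynomial v.O) :
    rp v (F.map v.O.subtype) = F.map v.resHom := by
  ext i
  rw [rp_coeff, Polynomial.coeff_map, Polynomial.coeff_map]
  exact v.red_of_reg (F.coeff i).2

theorem exists_lift' (v : Place k K) {g : Polynomial K} (hg : ∀ i, v.Reg (g.coeff i)) :
    ∃ F : Polynomial v.O, F.map v.O.subtype = g := by
  obtain ⟨F, hF, -⟩ := exists_lift v hg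
  exact ⟨F, hF⟩

end poly

section zeta

variable {k K : Type} [Field k] [Finite k] [Field K] [Algebra k K] [FF.IsFF k K] {ℓ : ℕ}

/-- the numerator of the zeta function modulo `ℓ` -/
theorem num_modL (hq : ((Nat.card k : ℕ) : ZMod ℓ) = 1) {P : Polynomial ℤ}
    (hP : IsZetaNumRel k K P) :
    ((P.map (Int.castRingHom (ZMod ℓ)) : Polynomial (ZMod ℓ)) : PowerSeries (ZMod ℓ)) *
      eulerProd (fun v : FF.Place k K => v.deg) (fun v => 1 - X ^ v.deg) =
        (1 - X ^ constDeg k K) ^ 2 := by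
  have h1 := congrArg (red ℓ) hP
  rw [map_mul, map_mul, map_eulerProd (fun n => places_fin n)] at h1
  have h2 : red ℓ (1 - X ^ constDeg k K) = 1 - X ^ constDeg k K := by
    rw [map_sub, map_one, map_pow, PowerSeries.map_X]
  have h3 : red ℓ (1 - C ((Nat.card k : ℤ) ^ constDeg k K) * X ^ constDeg k K) =
      1 - X ^ constDeg k K := by
    have : (Int.castRingHom (ZMod ℓ)) ((Nat.card k : ℤ) ^ constDeg k K) = 1 := by
      rw [map_pow, eq_intCast, Int.cast_natCast, hq, one_pow]
    rw [map_sub, map_one, map_mul, PowerSeries.map_C, this, map_pow, PowerSeries.map_X,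
      PowerSeries.C.map_one, one_mul]
  rw [h2, h3] at h1
  rw [pow_two, ← h1]
  congr 1
  · rw [← redL_poly]
  · congr 1
    funext v
    rw [map_sub, map_one, map_pow, PowerSeries.map_X]

theorem num_neL [Fact ℓ.Prime] (hq : ((Nat.card k : ℕ) : ZMod ℓ) = 1) {P : Polynomial ℤ}
    (hP : IsZetaNumRel k K P) : P.map (Int.castRingHom (ZMod ℓ)) ≠ 0 := by
  intro h
  have h1 := num_modL hq hP
  rw [h, Polynomial.coe_zero, zero_mul] at h1
  exact pow_ne_zero 2 (one_sub_ne (R := ZMod ℓ) (constDeg_pos k K)) h1.symm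

theorem isMu_num [Fact ℓ.Prime] (hq : ((Nat.card k : ℕ) : ZMod ℓ) = 1) {P : Polynomial ℤ}
    (hP : IsZetaNumRel k K P) :
    IsMu ((P.map (Int.castRingHom (ZMod ℓ)) : Polynomial (ZMod ℓ)) : PowerSeries (ZMod ℓ))
      (muMod ℓ P) :=
  ⟨_, rfl, num_neL hq hP, rfl⟩

end zeta

section glob

variable {k K : Type} [Field k] [Finite k] [Field K] [Algebra k K] [FF.IsFF k K] {ℓ : ℕ} {ι : Type}
  [Fintype ι] {L : ι → Type} [∀ i, Field (L i)] [∀ i, Algebra k (L i)] [∀ i, Algebra K (L i)]
  [∀ i, IsScalarTower k K (L i)]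

theorem zeta_fiberL (i : ι) [FF.IsFF k (L i)] [FiniteDimensional K (L i)]
    {S : Place k K → ∀ i, Finset (Place k (L i))} {e f : Place k K → (Σ i, Place k (L i)) → ℕ}
    (D : ∀ v, FiberData v (S v) (e v) (f v)) :
    eulerProd (fun v : Place k K => v.deg)
      (fun v => ∏ w ∈ S v i, (1 - X ^ w.deg : PowerSeries (ZMod ℓ))) =
    eulerProd (fun w : Place k (L i) => w.deg) (fun w => 1 - X ^ w.deg) := by
  refine eulerProd_fiber (fun n => places_fin n) (fun n => places_fin n)
    (fun w => one_sub_mod le_rfl) (fun v => S v i) ?_ ?_ ?_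
  · intro w
    obtain ⟨e', v, hv⟩ := exists_below (k := k) (K := K) w
    exact ⟨v, (D v).mem i w e' hv⟩
  · intro v v' w hw hw'
    exact over_unique_base ((D v).isOver i w hw) ((D v').isOver i w hw')
  · intro v w hw
    rw [(D v).deg i w hw]
    exact Nat.le_mul_of_pos_right _ ((D v).pos i w hw)

variable {f : Polynomial K} {c : K} {θ : ∀ i, L i} {a : ι → ℕ} {A : Finset (Place k K)}

theorem IsCovering.isFam (h : IsCovering ℓ A f c θ a) :
    IsFam (∏ i, minpoly K (θ i)) θ := by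
  refine ⟨?_, h.separable, h.generates, rfl⟩
  refine Polynomial.monic_prod_of_monic _ _ fun i _ => ?_
  apply minpoly.monic
  by_contra hn
  have h1 := h.separable.ne_zero
  exact h1 (Finset.prod_eq_zero (Finset.mem_univ i) (minpoly.eq_zero hn))

theorem IsCovering.facs_eq [Fact ℓ.Prime] (h : IsCovering ℓ A f c θ a) {v : Place k K}
    (hv : v ∉ A) : facs' v (rp v f) = facs' v (rp v (∏ i, minpoly K (θ i))) ∧ rp v f ≠ 0 ∧
      IsIntegral (A : Set (Place k K)) f := by
  have hfv : Finite v.RF := finite_RF v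
  have hF := h.isFam
  have hmm : ∀ i, (minpoly K (θ i)).Monic := fun i => minpoly.monic (hF.int i)
  have key : ∀ v, v ∉ A → ∃ (M : ι → Polynomial v.O) (c' : v.O), (∀ i, (M i).Monic) ∧
      (∀ i, (M i).map v.O.subtype = minpoly K (θ i)) ∧ v.O.subtype c' = c ∧
      v.resHom c' ≠ 0 := by
    intro v hv
    choose M hM using fun i => exists_lift' v (h.coeff v hv i)
    have hc : v.Reg c := Or.inr (h.unit v hv).ge
    refine ⟨M, ⟨c, hc⟩, fun i => ?_, hM, rfl, ?_⟩
    · refine Polynomial.monic_of_injective (f := v.O.subtype) Subtype.val_injective ?_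
      rw [hM i]
      exact hmm i
    · rw [← v.red_of_reg hc]
      intro h0
      rcases (v.red_eq_zero_iff hc).1 h0 with h1 | h1
      · exact h.ne_zero h1
      · rw [h.unit v hv] at h1
        exact lt_irrefl _ h1
  have hlc : f.leadingCoeff = c := by
    rw [h.eq, Polynomial.leadingCoeff_mul, Polynomial.leadingCoeff_C,
      Polynomial.leadingCoeff_prod]
    rw [Finset.prod_eq_one (fun i _ => by
      rw [Polynomial.leadingCoeff_pow, (hmm i).leadingCoeff, one_pow]), mul_one]
  have hf0 : f ≠ 0 := by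
    rw [← Polynomial.leadingCoeff_ne_zero, hlc]
    exact h.ne_zero
  obtain ⟨M, c', hMm, hM, hc', hc0⟩ := key v hv
  have e1 : rp v f = Polynomial.C (v.resHom c') * ∏ i, ((M i).map v.resHom) ^ a i := by
    have e2 : f = (Polynomial.C c' * ∏ i, (M i) ^ a i).map v.O.subtype := by
      rw [h.eq, Polynomial.map_mul, Polynomial.map_C, hc', Polynomial.map_prod]
      congr 1
      exact Finset.prod_congr rfl fun i _ => by rw [Polynomial.map_pow, hM i]
    rw [e2, rp_lift, Polynomial.map_mul, Polynomial.map_C, Polynomial.map_prod]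
    congr 1
    exact Finset.prod_congr rfl fun i _ => by rw [Polynomial.map_pow]
  have e3 : rp v (∏ i, minpoly K (θ i)) = ∏ i, (M i).map v.resHom := by
    have e2 : ∏ i, minpoly K (θ i) = (∏ i, M i).map v.O.subtype := by
      rw [Polynomial.map_prod]
      exact Finset.prod_congr rfl fun i _ => (hM i).symm
    rw [e2, rp_lift, Polynomial.map_prod]
  have hne1 : rp v f ≠ 0 := by
    rw [e1]
    exact mul_ne_zero (Polynomial.C_ne_zero.2 hc0) (Finset.prod_ne_zero_iff.2 fun i _ =>
      pow_ne_zero _ ((hMm i).map v.resHom).ne_zero)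
  have hne2 : rp v (∏ i, minpoly K (θ i)) ≠ 0 := by
    rw [e3]
    exact Finset.prod_ne_zero_iff.2 fun i _ => ((hMm i).map v.resHom).ne_zero
  refine ⟨?_, hne1, hf0, ?_, ?_⟩
  · unfold facs'
    ext Q
    rw [mem_facs hne1, mem_facs hne2, e1, e3,
      (Polynomial.isUnit_C.2 (isUnit_iff_ne_zero.2 hc0)).dvd_mul_left, Q.2.2.prime.dvd_finset_prod_iff,
      Q.2.2.prime.dvd_finset_prod_iff]
    refine exists_congr fun i => and_congr_right fun _ => ?_
    refine Q.2.2.prime.dvd_pow_iff_dvd ?_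
    intro h0
    apply h.exponent i
    rw [h0]
    exact dvd_zero ℓ
  · intro v hv i
    obtain ⟨M, c', hMm, hM, hc', hc0⟩ := key v hv
    have e2 : f = (Polynomial.C c' * ∏ i, (M i) ^ a i).map v.O.subtype := by
      rw [h.eq, Polynomial.map_mul, Polynomial.map_C, hc', Polynomial.map_prod]
      congr 1
      exact Finset.prod_congr rfl fun i _ => by rw [Polynomial.map_pow, hM i]
    rw [e2, Polynomial.coeff_map]
    exact (((Polynomial.C c' * ∏ i, (M i) ^ a i).coeff i)).2
  · intro v hv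
    rw [hlc]
    exact h.unit v hv

/-- the fibre of the places of the fields `L i` at a good place -/
theorem IsCovering.prod_above [Fact ℓ.Prime] (h : IsCovering ℓ A f c θ a) {v : Place k K}
    (hv : v ∉ A) {S : ∀ i, Finset (Place k (L i))} {e d : (Σ i, Place k (L i)) → ℕ}
    (D : FiberData v S e d) (φ : ℕ → PowerSeries (ZMod ℓ)) :
    ∏ i, ∏ w ∈ S i, φ w.deg = ∏ Q ∈ facs' v (rp v f), φ (v.deg * Q.1.natDegree) := by
  have hfv : Finite v.RF := finite_RF v
  rw [(h.facs_eq hv).1]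
  have hreg : ∀ i, v.Reg ((∏ i, minpoly K (θ i)).coeff i) := by
    choose M hM using fun i => exists_lift' v (h.coeff v hv i)
    have e2 : ∏ i, minpoly K (θ i) = (∏ i, M i).map v.O.subtype := by
      rw [Polynomial.map_prod]
      exact Finset.prod_congr rfl fun i _ => (hM i).symm
    intro i
    rw [e2, Polynomial.coeff_map]
    exact ((∏ i, M i).coeff i).2
  obtain ⟨F, hF1⟩ := exists_lift' v hreg
  have hrp : rp v (∏ i, minpoly K (θ i)) = F.map v.resHom := by
    rw [← rp_lift, hF1]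
  have hreg' : ∀ P : MI v.RF, P.1 ^ 2 ∣ F.map v.resHom → RegO v F P := by
    intro P hP
    rw [← hrp] at hP
    obtain ⟨t, q, g, r, m, ht, hc, he, hq, hg, hr⟩ := h.regular v hv P hP
    have htr : v.Reg t := Or.inr (by omega)
    obtain ⟨q', hq'⟩ := exists_lift' v fun i => (hc i).1
    obtain ⟨g', hg'⟩ := exists_lift' v fun i => (hc i).2.1
    obtain ⟨r', hr'⟩ := exists_lift' v fun i => (hc i).2.2
    refine ⟨t, htr, q', g', r', m, ht, ?_, ?_, ?_, ?_⟩
    · apply Polynomial.map_injective v.O.subtype Subtype.val_injective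
      rw [hF1, he, Polynomial.map_add, Polynomial.map_mul, Polynomial.map_pow, Polynomial.map_mul,
        Polynomial.map_C, hq', hg', hr']
      rfl
    · rw [← rp_lift, hq']
      exact hq
    · rw [← rp_lift, hg']
      exact hg
    · rw [← rp_lift, hr']
      exact hr
  rw [kd_reg h.isFam v hF1 hreg' D φ, hrp]
  rfl

open Classical in
/-- the identity over `K` -/
theorem IsCovering.identity [hp : Fact ℓ.Prime] (hq : ((Nat.card k : ℕ) : ZMod ℓ) = 1)
    (h : IsCovering ℓ A f c θ a) [∀ i, FF.IsFF k (L i)]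
    {PK : Polynomial ℤ} (hPK : IsZetaNumRel k K PK) (hrK : constDeg k K = 1)
    {PL : ι → Polynomial ℤ} (hPL : ∀ i, IsZetaNumRel k (L i) (PL i))
    {S : Place k K → ∀ i, Finset (Place k (L i))} {e d : Place k K → (Σ i, Place k (L i)) → ℕ}
    (D : ∀ v, FiberData v (S v) (e v) (d v)) :
    red ℓ (LOutside ℓ (A : Set (Place k K)) f) *
        ((∏ i, (1 - X ^ constDeg k (L i)) ^ 2) ^ (ℓ - 1) *
        (((PK.map (Int.castRingHom (ZMod ℓ)) : Polynomial (ZMod ℓ)) : PowerSeries (ZMod ℓ)) *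
          ∏ v ∈ A, (1 - X ^ v.deg)) ^ ((1 + eps ℓ f.natDegree) * (ℓ - 1))) =
      ((1 - X) ^ 2) ^ ((1 + eps ℓ f.natDegree) * (ℓ - 1)) *
        ((∏ i, (((PL i).map (Int.castRingHom (ZMod ℓ)) : Polynomial (ZMod ℓ)) :
          PowerSeries (ZMod ℓ))) * ∏ v ∈ A, ∏ i, ∏ w ∈ S v i, (1 - X ^ w.deg)) ^ (ℓ - 1) := by
  have hfv : ∀ v : Place k K, Finite v.RF := finite_RF
  have hℓ := hp.out.pos
  have hfd : ∀ i, FiniteDimensional K (L i) := h.isFam.fd
  set E : ℕ := (1 + eps ℓ f.natDegree) * (ℓ - 1) with hE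
  set Φ : Place k K → PowerSeries (ZMod ℓ) := fun v => ∏ i, ∏ w ∈ S v i, (1 - X ^ w.deg) with hΦ
  set W : Place k K → PowerSeries (ZMod ℓ) :=
    fun v => red ℓ (wv ℓ (A : Set (Place k K)) f v) with hW
  set Z : Place k K → PowerSeries (ZMod ℓ) := fun v => 1 - X ^ v.deg with hZ
  have hΦ0 : ∀ i v, (X : PowerSeries (ZMod ℓ)) ^ v.deg ∣ (∏ w ∈ S v i, (1 - X ^ w.deg)) - 1 := by
    intro i v
    have h := prod_congr_mod (S v i) (fun w => (1 - X ^ w.deg : PowerSeries (ZMod ℓ)))
      (fun _ => 1) v.deg (fun w hw => one_sub_mod (by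
        rw [(D v).deg i w hw]
        exact Nat.le_mul_of_pos_right _ ((D v).pos i w hw)))
    rwa [Finset.prod_const_one] at h
  have hΦ1 : ∀ v, (X : PowerSeries (ZMod ℓ)) ^ v.deg ∣ Φ v - 1 := by
    intro v
    have h := prod_congr_mod Finset.univ
      (fun i => ∏ w ∈ S v i, (1 - X ^ w.deg : PowerSeries (ZMod ℓ)))
      (fun _ => 1) v.deg (fun i _ => hΦ0 i v)
    rwa [Finset.prod_const_one] at h
  have hW1 : ∀ v, (X : PowerSeries (ZMod ℓ)) ^ v.deg ∣ W v - 1 :=
    fun v => redwv_mod hℓ _ f v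
  have hZ1 : ∀ v, (X : PowerSeries (ZMod ℓ)) ^ v.deg ∣ Z v - 1 := fun v => one_sub_mod le_rfl
  have hgood : ∀ v, v ∉ A → W v * Φ v ^ (ℓ - 1) = Z v ^ E := by
    intro v hv
    have h1 := wv_red hq (B := (A : Set (Place k K))) (g := f) (v := v) hv (h.facs_eq hv).2.1
    rw [← h.prod_above hv (D v) (fun n => 1 - X ^ n)] at h1
    exact h1
  have key := fin_factor' (F := fun v => W v * Φ v ^ (ℓ - 1)) (W := fun v => Z v ^ E)
    (fun n => places_fin n) (fun v => one_mod_mul (hW1 v) (pow_one_mod (hΦ1 v) _))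
    (fun v => pow_one_mod (hZ1 v) _) A hgood
  have hEΦ : eulerProd (fun v : Place k K => v.deg) Φ =
      ∏ i, eulerProd (fun w : Place k (L i) => w.deg)
        (fun w => (1 - X ^ w.deg : PowerSeries (ZMod ℓ))) := by
    rw [hΦ, eulerProd_prod (fun n => places_fin n) Finset.univ
      (fun i v => ∏ w ∈ S v i, (1 - X ^ w.deg : PowerSeries (ZMod ℓ))) (fun i v => hΦ0 i v)]
    exact Finset.prod_congr rfl fun i _ => zeta_fiberL i D
  have hLS : red ℓ (LOutside ℓ (A : Set (Place k K)) f) =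
      eulerProd (fun v : Place k K => v.deg) W := red_L hℓ _ f
  rw [eulerProd_mul (fun n => places_fin n) hW1 (fun v => pow_one_mod (hΦ1 v) _),
    eulerProd_pow (fun n => places_fin n) hΦ1, eulerProd_pow (fun n => places_fin n) hZ1, hEΦ,
    ← hLS, Finset.prod_pow, Finset.prod_mul_distrib, Finset.prod_pow,
    Finset.prod_eq_one (s := A) (f := W) (fun v hv => by
      show red ℓ (wv ℓ (A : Set (Place k K)) f v) = 1
      rw [wv_in (Finset.mem_coe.2 hv), map_one]), one_mul] at key
  have hK := num_modL hq hPK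
  rw [hrK, pow_one] at hK
  have hLi := fun i => num_modL (ℓ := ℓ) hq (hPL i)
  have hprod : (∏ i, (((PL i).map (Int.castRingHom (ZMod ℓ)) : Polynomial (ZMod ℓ)) :
        PowerSeries (ZMod ℓ))) *
      ∏ i, eulerProd (fun w : Place k (L i) => w.deg)
        (fun w => (1 - X ^ w.deg : PowerSeries (ZMod ℓ))) =
      ∏ i, (1 - X ^ constDeg k (L i)) ^ 2 := by
    rw [← Finset.prod_mul_distrib, Finset.prod_congr rfl (fun i _ => hLi i)]
  rw [← hprod, ← hK]
  simp only [mul_pow] at key ⊢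
  linear_combination (((PK.map (Int.castRingHom (ZMod ℓ)) : Polynomial (ZMod ℓ)) :
    PowerSeries (ZMod ℓ)) ^ E *
    (∏ i, (((PL i).map (Int.castRingHom (ZMod ℓ)) : Polynomial (ZMod ℓ)) :
        PowerSeries (ZMod ℓ))) ^ (ℓ - 1)) * key

end glob

end Pool.Agent.J6H24.ST
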